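import Mathlib

/-!
# A finite form of Schnirelmann's theorem

`A` is a set of natural numbers with `|A ∩ [1, n]| ≥ α n` for all `1 ≤ n ≤ Y`.  Then every `n ≤ Y` is a sum of at
most `k` elements of `A`, where `k` depends on `α` only.
-/

set_option autoImplicit false

namespace Pool.Agent.Run7.h254.GB

open Finset Classical

/-- the number of elements of `A` in `[1, n]` -/
noncomputable def cnt (A : Set ℕ) (n : ℕ) : ℕ := ((Icc 1 n).filter (· ∈ A)).card

theorem cnt_zero (A : Set ℕ) : cnt A 0 = 0 := by simp [cnt]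

theorem cnt_mono {A B : Set ℕ} (n : ℕ) (h : ∀ x, 1 ≤ x → x ≤ n → x ∈ A → x ∈ B) : cnt A n ≤ cnt B n := by
  unfold cnt
  apply card_le_card
  intro x hx
  rw [mem_filter, mem_Icc] at hx ⊢
  exact ⟨hx.1, h x hx.1.1 hx.1.2 hx.2⟩

theorem cnt_succ (A : Set ℕ) (n : ℕ) : cnt A (n + 1) = cnt A n + if n + 1 ∈ A then 1 else 0 := by
  unfold cnt
  rw [← Finset.insert_Icc_right_eq_Icc_add_one (by omega), filter_insert]
  split_ifs with h
  · rw [card_insert_of_notMem (by simp)]
  · rfl

/-- splitting at `a`: if `a + s ∈ T` for all `s ∈ S`, `s ≤ j`, then `T` has `cnt S j` elements in `(a, a + j]`. -/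
theorem cnt_split (T S : Set ℕ) (a j : ℕ) (h : ∀ s, 1 ≤ s → s ≤ j → s ∈ S → a + s ∈ T) :
    cnt T a + cnt S j ≤ cnt T (a + j) := by
  induction j with
  | zero => simp [cnt_zero]
  | succ j ih =>
    have h1 := ih (fun s hs hsj => h s hs (by omega))
    rw [cnt_succ S j, ← add_assoc a j 1, cnt_succ T (a + j)]
    split_ifs with h2 h3 h3
    · omega
    · exact absurd (h (j + 1) (by omega) le_rfl h2) h3
    · omega
    · omega

/-- **Schnirelmann's inequality**, finite form. -/
theorem schnirelmann_step {A S T : Set ℕ} {α β : ℝ} {Y : ℕ} (hβ0 : 0 ≤ β) (hβ1 : β ≤ 1)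
    (hA : ∀ n, 1 ≤ n → n ≤ Y → α * n ≤ cnt A n) (hS : ∀ n, 1 ≤ n → n ≤ Y → β * n ≤ cnt S n)
    (h1 : ∀ a, a ≤ Y → a ∈ A → a ∈ T) (h2 : ∀ s, s ≤ Y → s ∈ S → s ∈ T)
    (h3 : ∀ a s, a + s ≤ Y → a ∈ A → s ∈ S → a + s ∈ T) :
    ∀ n, 1 ≤ n → n ≤ Y → (1 - (1 - α) * (1 - β)) * n ≤ cnt T n := by
  have key : ∀ n, n ≤ Y → (1 - β) * cnt A n + β * n ≤ cnt T n := by
    intro n
    induction n using Nat.strong_induction_on with
    | _ n ih =>
      intro hn
      by_cases hex : ∃ a, 1 ≤ a ∧ a ≤ n ∧ a ∈ A
      · -- the largest element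
        obtain ⟨a, ⟨ha1, han, haA⟩, hmax⟩ :
            ∃ a, (1 ≤ a ∧ a ≤ n ∧ a ∈ A) ∧ ∀ b, a < b → b ≤ n → b ∉ A := by
          have hfin : ((Icc 1 n).filter (· ∈ A)).Nonempty := by
            obtain ⟨a, h1, h2, h3⟩ := hex
            exact ⟨a, by simp [h1, h2, h3]⟩
          refine ⟨((Icc 1 n).filter (· ∈ A)).max' hfin, ?_, ?_⟩
          · have := Finset.max'_mem _ hfin
            rw [mem_filter, mem_Icc] at this
            exact ⟨this.1.1, this.1.2, this.2⟩
          · intro b hb hbn hbA
            have := Finset.le_max' ((Icc 1 n).filter (· ∈ A)) b (by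
              rw [mem_filter, mem_Icc]; exact ⟨⟨by omega, hbn⟩, hbA⟩)
            omega
        -- count of A in [1, n] equals that in [1, a]
        have hcA : cnt A n = cnt A a := by
          have : ∀ j, a + j ≤ n → cnt A (a + j) = cnt A a := by
            intro j
            induction j with
            | zero => intro _; rfl
            | succ j ihj =>
              intro hj
              rw [← add_assoc, cnt_succ, ihj (by omega), if_neg (hmax _ (by omega) (by omega))]
              rfl
          have h4 := this (n - a) (by omega)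
          rwa [Nat.add_sub_cancel' han] at h4
        have hprev := ih (a - 1) (by omega) (by omega)
        have hsA : cnt A a = cnt A (a - 1) + 1 := by
          have h5 : a = (a - 1) + 1 := by omega
          rw [h5, cnt_succ, if_pos (by rw [← h5]; exact haA)]
          rfl
        have hsT : cnt T a = cnt T (a - 1) + 1 := by
          have h5 : a = (a - 1) + 1 := by omega
          rw [h5, cnt_succ, if_pos (by rw [← h5]; exact h1 a (by omega) haA)]
          rfl
        have hsp := cnt_split T S a (n - a) (fun s hs hsj hsS => h3 a s (by omega) haA hsS)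
        rw [Nat.add_sub_cancel' han] at hsp
        have hSn : β * ((n - a : ℕ) : ℝ) ≤ cnt S (n - a) := by
          rcases Nat.eq_zero_or_pos (n - a) with h6 | h6
          · rw [h6]; simp [cnt_zero]
          · exact hS (n - a) h6 (by omega)
        have e1 : ((a - 1 : ℕ) : ℝ) = (a : ℝ) - 1 := by
          rw [Nat.cast_sub ha1]; simp
        have e2 : ((n - a : ℕ) : ℝ) = (n : ℝ) - a := by
          rw [Nat.cast_sub han]
        rw [hcA, hsA]
        rw [e1] at hprev
        rw [e2] at hSn
        have h7 : ((cnt T (a - 1) + 1 : ℕ) : ℝ) + cnt S (n - a) ≤ cnt T n := by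
          rw [← hsT]; exact_mod_cast hsp
        push_cast at h7 ⊢
        nlinarith
      · push Not at hex
        have h4 : cnt A n = 0 := by
          unfold cnt
          rw [card_eq_zero, filter_eq_empty_iff]
          intro x hx
          rw [mem_Icc] at hx
          exact hex x hx.1 hx.2
        rw [h4]
        have h5 : cnt S n ≤ cnt T n := cnt_mono n (fun x _ hx hxS => h2 x (by omega) hxS)
        rcases Nat.eq_zero_or_pos n with h6 | h6
        · subst h6; simp
        · have h7 := hS n h6 hn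
          have h8 : (cnt S n : ℝ) ≤ cnt T n := by exact_mod_cast h5
          push_cast
          linarith
  intro n hn1 hnY
  have h4 := key n hnY
  have h5 := hA n hn1 hnY
  have h6 : (1 - β) * (α * n) ≤ (1 - β) * cnt A n := mul_le_mul_of_nonneg_left h5 (by linarith)
  nlinarith

/-- `n` is a sum of at most `k` elements of `A`. -/
def Rep (A : Set ℕ) (k n : ℕ) : Prop := ∃ s : Multiset ℕ, s.card ≤ k ∧ s.sum = n ∧ ∀ g ∈ s, g ∈ A

theorem Rep.zero (A : Set ℕ) (k : ℕ) : Rep A k 0 := ⟨0, by simp, by simp, by simp⟩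

theorem Rep.one {A : Set ℕ} {a : ℕ} (h : a ∈ A) : Rep A 1 a := ⟨{a}, by simp, by simp, by simpa using h⟩

theorem Rep.add {A : Set ℕ} {k l m n : ℕ} (h1 : Rep A k m) (h2 : Rep A l n) : Rep A (k + l) (m + n) := by
  obtain ⟨s, hs, hs', hs''⟩ := h1
  obtain ⟨t, ht, ht', ht''⟩ := h2
  refine ⟨s + t, ?_, ?_, ?_⟩
  · rw [Multiset.card_add]; omega
  · rw [Multiset.sum_add, hs', ht']
  · intro g hg
    rcases Multiset.mem_add.1 hg with h | h
    · exact hs'' g h
    · exact ht'' g h

theorem Rep.mono {A B : Set ℕ} {k l n : ℕ} (h : Rep A k n) (hkl : k ≤ l) (hAB : ∀ a ∈ A, a ∈ B) : Rep B l n := by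
  obtain ⟨s, hs, hs', hs''⟩ := h
  exact ⟨s, hs.trans hkl, hs', fun g hg => hAB g (hs'' g hg)⟩

theorem density_pow {A : Set ℕ} {α : ℝ} {Y : ℕ} (h0 : 0 ≤ α) (h1 : α ≤ 1)
    (hA : ∀ n, 1 ≤ n → n ≤ Y → α * n ≤ cnt A n) (j : ℕ) :
    ∀ n, 1 ≤ n → n ≤ Y → (1 - (1 - α) ^ j) * n ≤ cnt {m | Rep A j m} n := by
  induction j with
  | zero => intro n _ _; simp
  | succ j ih =>
    have h2 : (0 : ℝ) ≤ 1 - (1 - α) ^ j := by
      have : (1 - α) ^ j ≤ 1 := pow_le_one₀ (by linarith) (by linarith)
      linarith
    have h3 : (1 : ℝ) - (1 - α) ^ j ≤ 1 := by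
      have : 0 ≤ (1 - α) ^ j := pow_nonneg (by linarith) _
      linarith
    have := schnirelmann_step (T := {m | Rep A (j + 1) m}) h2 h3 hA ih
      (fun a _ ha => (Rep.one ha).mono (by omega) (fun _ h => h))
      (fun s _ hs => Rep.mono hs (by omega) (fun _ h => h))
      (fun a s _ ha hs => by
        have h4 := (Rep.one ha).add hs
        exact h4.mono (by omega) (fun _ h => h))
    intro n hn hnY
    have h5 := this n hn hnY
    have e : (1 : ℝ) - (1 - α) * (1 - (1 - (1 - α) ^ j)) = 1 - (1 - α) ^ (j + 1) := by ring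
    rwa [e] at h5

/-- **Schnirelmann's theorem**, finite form. -/
theorem schnirelmann (α : ℝ) (hα : 0 < α) : ∃ k : ℕ, ∀ (A : Set ℕ) (Y : ℕ),
    (∀ n, 1 ≤ n → n ≤ Y → α * n ≤ cnt A n) → ∀ n, n ≤ Y → Rep A k n := by
  by_cases hα1 : α ≤ 1
  · obtain ⟨j, hj⟩ := exists_pow_lt_of_lt_one (show (0 : ℝ) < 1 / 2 by norm_num)
      (show 1 - α < 1 by linarith)
    refine ⟨j + j, fun A Y hA n hn => ?_⟩
    rcases Nat.eq_zero_or_pos n with h0 | h0
    · subst h0; exact Rep.zero A _
    by_cases hnR : Rep A j n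
    · exact hnR.mono (by omega) (fun _ h => h)
    have h1 := density_pow hα.le hα1 hA j n h0 hn
    set S : Finset ℕ := (Icc 1 n).filter (· ∈ {m | Rep A j m}) with hS
    have h2 : (n : ℝ) / 2 < S.card := by
      have h3 : ((n : ℝ)) / 2 < (1 - (1 - α) ^ j) * n := by
        have : (0 : ℝ) < n := by exact_mod_cast h0
        nlinarith
      exact lt_of_lt_of_le h3 h1
    have h3 : n < 2 * S.card := by
      have : (n : ℝ) < 2 * S.card := by linarith
      exact_mod_cast this
    -- both `S` and `n - S` lie in `[1, n - 1]`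
    set S' : Finset ℕ := S.image (fun x => n - x) with hS'
    have hmem : ∀ x ∈ S, 1 ≤ x ∧ x < n ∧ Rep A j x := by
      intro x hx
      rw [hS, mem_filter, mem_Icc] at hx
      refine ⟨hx.1.1, ?_, hx.2⟩
      rcases Nat.lt_or_ge x n with h | h
      · exact h
      · exact absurd (by have : x = n := by omega
                         rw [← this]; exact hx.2) hnR
    have hcard : S'.card = S.card := by
      apply card_image_of_injOn
      intro x hx y hy hxy
      have := hmem x hx; have := hmem y hy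
      simp only at hxy
      omega
    have hsub : S ∪ S' ⊆ Icc 1 (n - 1) := by
      intro x hx
      rw [mem_union] at hx
      rw [mem_Icc]
      rcases hx with h | h
      · have := hmem x h; omega
      · rw [hS', mem_image] at h
        obtain ⟨y, hy, rfl⟩ := h
        have := hmem y hy; omega
    have hint : ¬ Disjoint S S' := by
      intro hd
      have h4 := card_le_card hsub
      rw [card_union_of_disjoint hd, hcard, Nat.card_Icc] at h4
      omega
    rw [Finset.not_disjoint_iff] at hint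
    obtain ⟨x, hx, hx'⟩ := hint
    rw [hS', mem_image] at hx'
    obtain ⟨y, hy, hyx⟩ := hx'
    have h4 := hmem x hx
    have h5 := hmem y hy
    have h6 : n = x + y := by omega
    rw [h6]
    exact h4.2.2.add h5.2.2
  · refine ⟨0, fun A Y hA n hn => ?_⟩
    rcases Nat.eq_zero_or_pos Y with h | h
    · have : n = 0 := by omega
      subst this; exact Rep.zero A _
    · exfalso
      have h1 := hA 1 le_rfl h
      have h2 : cnt A 1 ≤ 1 := by
        unfold cnt
        refine (card_filter_le _ _).trans ?_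
        simp
      have h3 : (cnt A 1 : ℝ) ≤ 1 := by exact_mod_cast h2
      push_cast at h1
      linarith

end Pool.Agent.Run7.h254.GB
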