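import Mathlib
import Pool.Agent.Run7.h254.GB.Schnir

/-!
# From positive density on all large scales to a basis of bounded order
-/

set_option autoImplicit false

namespace Pool.Agent.Run7.h254.GB

open Finset Classical Filter

/-- `log x (log log x)^2 (log log log log x) / (log log log x)^2` -/
noncomputable def rcd (x : ℝ) : ℝ :=
  Real.log x * (Real.log (Real.log x)) ^ 2 * Real.log (Real.log (Real.log (Real.log x))) /
    (Real.log (Real.log (Real.log x))) ^ 2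

theorem log_le_sqrt {u : ℝ} (hu : 0 < u) : Real.log u ≤ 2 * Real.sqrt u := by
  have h1 : 0 < Real.sqrt u := Real.sqrt_pos.2 hu
  have h2 := Real.log_le_sub_one_of_pos h1
  have h3 : Real.log u = 2 * Real.log (Real.sqrt u) := by
    rw [Real.log_sqrt hu.le]; ring
  linarith

theorem rcd_lower {x : ℝ} (h1 : 0 < Real.log x) (h2 : 1 < Real.log (Real.log x))
    (h3 : 1 ≤ Real.log (Real.log (Real.log (Real.log x)))) :
    Real.log x * (Real.log (Real.log x) / 4) ≤ rcd x := by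
  unfold rcd
  set L := Real.log x
  set u := Real.log L
  set v := Real.log u with hv
  set w := Real.log v
  have hu : 0 < u := by linarith
  have hv0 : 0 < v := Real.log_pos h2
  have h4 : v ≤ 2 * Real.sqrt u := log_le_sqrt hu
  have h5 : v ^ 2 ≤ 4 * u := by
    have h6 : v ^ 2 ≤ (2 * Real.sqrt u) ^ 2 := pow_le_pow_left₀ hv0.le h4 2
    rw [mul_pow, Real.sq_sqrt hu.le] at h6
    linarith
  rw [le_div_iff₀ (by positivity)]
  calc L * (u / 4) * v ^ 2 ≤ L * (u / 4) * (4 * u) := mul_le_mul_of_nonneg_left h5 (by positivity)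
    _ = L * u ^ 2 := by ring
    _ ≤ L * u ^ 2 * w := le_mul_of_one_le_right (by positivity) h3

/-- for large `y` the number `⌊e^y⌋` has `y` below its record scale -/
theorem floor_exp_ok {c : ℝ} (hc : 0 < c) (N₀ : ℕ) : ∃ Y₀ : ℝ, 1 ≤ Y₀ ∧ ∀ y : ℝ, Y₀ ≤ y →
    N₀ ≤ ⌊Real.exp y⌋₊ ∧ 1 ≤ ⌊Real.exp y⌋₊ ∧ Real.log ⌊Real.exp y⌋₊ ≤ y ∧ y ≤ c * rcd ⌊Real.exp y⌋₊ ∧
      Real.exp y ≤ 2 * ⌊Real.exp y⌋₊ := by
  have t1 : Tendsto (fun y : ℝ => Real.exp y) atTop atTop := Real.tendsto_exp_atTop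
  have t2 : Tendsto (fun y : ℝ => y / 2) atTop atTop := tendsto_id.atTop_div_const (by norm_num)
  have t3 : Tendsto (fun y : ℝ => Real.log (y / 2)) atTop atTop := Real.tendsto_log_atTop.comp t2
  have t4 : Tendsto (fun y : ℝ => Real.log (Real.log (Real.log (y / 2)))) atTop atTop :=
    Real.tendsto_log_atTop.comp (Real.tendsto_log_atTop.comp t3)
  have h := ((((t1.eventually_ge_atTop ((N₀ : ℝ) + 2)).and (t3.eventually_ge_atTop (8 / c + 2))).and
    (t4.eventually_ge_atTop 1)).and (eventually_ge_atTop (4 : ℝ)))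
  obtain ⟨Y₀, hY₀⟩ := Filter.eventually_atTop.1 h
  refine ⟨max Y₀ 1, le_max_right _ _, fun y hy => ?_⟩
  obtain ⟨⟨⟨h1, h2⟩, h3⟩, h4⟩ := hY₀ y ((le_max_left _ _).trans hy)
  set M := ⌊Real.exp y⌋₊ with hM
  have hpos : 0 < Real.exp y := Real.exp_pos y
  have hM1 : (M : ℝ) ≤ Real.exp y := Nat.floor_le hpos.le
  have hM2 : Real.exp y < M + 1 := Nat.lt_floor_add_one _
  have hN0 : (0 : ℝ) ≤ N₀ := Nat.cast_nonneg _
  have hM3 : N₀ ≤ M := by
    have : (N₀ : ℝ) < M + 1 := by linarith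
    have h5 : N₀ < M + 1 := by exact_mod_cast this
    omega
  have hM4 : 1 ≤ M := by
    have : (1 : ℝ) < M + 1 := by linarith
    have h5 : 1 < M + 1 := by exact_mod_cast this
    omega
  have hM4r : (1 : ℝ) ≤ M := by exact_mod_cast hM4
  have hM0 : (0 : ℝ) < M := by linarith
  have hlog : Real.log M ≤ y := by
    rw [Real.log_le_iff_le_exp hM0]; exact hM1
  -- `log M ≥ y / 2`
  have hlog2 : y / 2 ≤ Real.log M := by
    rw [Real.le_log_iff_exp_le hM0]
    have h6 : Real.exp y = Real.exp (y / 2) * Real.exp (y / 2) := by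
      rw [← Real.exp_add]; congr 1; ring
    have h7 : 1 + y / 2 ≤ Real.exp (y / 2) := by
      have := Real.add_one_le_exp (y / 2); linarith
    nlinarith
  have hy2 : 0 < y / 2 := by linarith
  have hu : Real.log (y / 2) ≤ Real.log (Real.log M) := Real.log_le_log hy2 hlog2
  have h8c : 0 < 8 / c := by positivity
  have hu1 : 1 < Real.log (Real.log M) := by linarith
  have hl3 : 0 < Real.log (y / 2) := by linarith
  have hv : Real.log (Real.log (y / 2)) ≤ Real.log (Real.log (Real.log M)) := Real.log_le_log hl3 hu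
  have hv0 : 0 < Real.log (Real.log (y / 2)) := Real.log_pos (by linarith)
  have hw : 1 ≤ Real.log (Real.log (Real.log (Real.log M))) :=
    h3.trans (Real.log_le_log hv0 hv)
  refine ⟨hM3, hM4, hlog, ?_, ?_⟩
  · have h9 := rcd_lower (x := (M : ℝ)) (by linarith) hu1 hw
    have h10 : 8 / c / 4 ≤ Real.log (Real.log M) / 4 := by linarith
    have h11 : y / 2 * (8 / c / 4) ≤ Real.log M * (Real.log (Real.log M) / 4) :=
      mul_le_mul hlog2 h10 (by positivity) (by linarith)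
    have h12 : c * (y / 2 * (8 / c / 4)) = y := by field_simp; norm_num
    calc y = c * (y / 2 * (8 / c / 4)) := h12.symm
      _ ≤ c * rcd M := mul_le_mul_of_nonneg_left (h11.trans h9) hc.le
  · linarith

theorem basis_of (occ : ℕ → ℕ → ℕ) (hmono : ∀ N N' t, N ≤ N' → occ N t ≤ occ N' t)
    (htwo : ∀ N, 2 ≤ N → 1 ≤ occ N 2)
    (hrec : ∃ c : ℝ, 0 < c ∧ ∃ N₀ : ℕ, ∀ N : ℕ, N₀ ≤ N →
      ∀ Y : ℝ, Real.log N ≤ Y → Y ≤ c * rcd N →
      ∃ F : Finset ℕ, c * Y ≤ F.card ∧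
        ∀ t ∈ F, 0 < t ∧ Even t ∧ (t : ℝ) ≤ Y ∧ (N : ℝ) ^ (4 / 5 : ℝ) ≤ occ N t) :
    ∃ c : ℝ, 0 < c ∧ ∃ k : ℕ, ∀ N : ℕ, 2 ≤ N → ∀ t : ℕ, Even t → (t : ℝ) ≤ c * rcd N →
      ∃ s : Multiset ℕ, s.card ≤ k ∧ s.sum = t ∧
        ∀ g ∈ s, 0 < g ∧ Even g ∧ c * (min (N : ℝ) (Real.exp g)) ^ (4 / 5 : ℝ) ≤ occ N g := by
  obtain ⟨c₀, hc₀, N₀, hN₀⟩ := hrec
  obtain ⟨Y₀, hY1, hY₀⟩ := floor_exp_ok hc₀ N₀
  set α : ℝ := min (2 * c₀) (2 / Y₀) with hα
  have hα0 : 0 < α := lt_min (by positivity) (by positivity)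
  obtain ⟨k, hk⟩ := schnirelmann α hα0
  -- the density of the good numbers
  have hdens : ∀ N : ℕ, max N₀ 2 ≤ N → ∀ n : ℕ, 1 ≤ n → n ≤ ⌊c₀ * rcd N / 2⌋₊ →
      α * n ≤ cnt {m | 0 < 2 * m ∧ Even (2 * m) ∧
        1 / 10 * (min (N : ℝ) (Real.exp ((2 * m : ℕ) : ℝ))) ^ (4 / 5 : ℝ) ≤ occ N (2 * m)} n := by
    intro N hN n hn1 hnY
    have hN2 : 2 ≤ N := (le_max_right _ _).trans hN
    have hNr : (2 : ℝ) ≤ N := by exact_mod_cast hN2
    obtain ⟨A, hA⟩ : ∃ A : Set ℕ, A = {m | 0 < 2 * m ∧ Even (2 * m) ∧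
        1 / 10 * (min (N : ℝ) (Real.exp ((2 * m : ℕ) : ℝ))) ^ (4 / 5 : ℝ) ≤ occ N (2 * m)} := ⟨_, rfl⟩
    rw [← hA]
    have hnr : (1 : ℝ) ≤ n := by exact_mod_cast hn1
    by_cases hbig : Y₀ ≤ 2 * (n : ℝ)
    · -- large scale
      have hpos : 0 ≤ c₀ * rcd N / 2 := by
        by_contra hneg
        have : ⌊c₀ * rcd N / 2⌋₊ = 0 := Nat.floor_of_nonpos (by linarith)
        omega
      have hnle : 2 * (n : ℝ) ≤ c₀ * rcd N := by
        have h1 : (n : ℝ) ≤ c₀ * rcd N / 2 := (Nat.le_floor_iff hpos).1 hnY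
        linarith
      -- the number `N'`
      obtain ⟨N', hN'N, hN'0, hN'1, hlog, hrc, hmin⟩ : ∃ N' : ℕ, N' ≤ N ∧ N₀ ≤ N' ∧ 1 ≤ N' ∧
          Real.log N' ≤ 2 * (n : ℝ) ∧ 2 * (n : ℝ) ≤ c₀ * rcd N' ∧
          min (N : ℝ) (Real.exp (2 * (n : ℝ))) ≤ 2 * N' := by
        rcases le_or_gt (Real.log N) (2 * (n : ℝ)) with h | h
        · exact ⟨N, le_rfl, (le_max_left _ _).trans hN, by omega, h, hnle,
            (min_le_left _ _).trans (by linarith)⟩
        · obtain ⟨h1, h2, h3, h4, h5⟩ := hY₀ (2 * (n : ℝ)) hbig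
          refine ⟨⌊Real.exp (2 * (n : ℝ))⌋₊, ?_, h1, h2, h3, h4, (min_le_right _ _).trans h5⟩
          have h6 : Real.exp (2 * (n : ℝ)) < N := by
            rw [← Real.lt_log_iff_exp_lt (by linarith)]; exact h
          have h7 : ((⌊Real.exp (2 * (n : ℝ))⌋₊ : ℕ) : ℝ) ≤ N :=
            (Nat.floor_le (Real.exp_pos _).le).trans h6.le
          exact_mod_cast h7
      obtain ⟨F, hF, hF'⟩ := hN₀ N' hN'0 (2 * (n : ℝ)) hlog hrc
      have hsub : (F.image (fun t => t / 2)) ⊆ (Icc 1 n).filter (· ∈ A) := by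
        intro m hm
        rw [mem_image] at hm
        obtain ⟨t, ht, rfl⟩ := hm
        obtain ⟨h1, h2, h3, h4⟩ := hF' t ht
        have h5 : 2 * (t / 2) = t := Nat.two_mul_div_two_of_even h2
        have h6 : t ≤ 2 * n := by exact_mod_cast h3
        rw [mem_filter, mem_Icc]
        refine ⟨⟨by omega, by omega⟩, ?_⟩
        rw [hA, Set.mem_ofPred_eq, h5]
        refine ⟨h1, h2, ?_⟩
        have h7 : (N' : ℝ) ^ (4 / 5 : ℝ) ≤ occ N t :=
          h4.trans (by exact_mod_cast hmono N' N t hN'N)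
        have hN'r : (1 : ℝ) ≤ N' := by exact_mod_cast hN'1
        have h8 : min (N : ℝ) (Real.exp (t : ℝ)) ≤ 2 * N' := by
          refine le_trans (min_le_min le_rfl (Real.exp_le_exp.2 ?_)) hmin
          exact_mod_cast h6
        have h9 : (min (N : ℝ) (Real.exp (t : ℝ))) ^ (4 / 5 : ℝ) ≤ (2 * N' : ℝ) ^ (4 / 5 : ℝ) :=
          Real.rpow_le_rpow (le_min (by linarith) (Real.exp_pos _).le) h8 (by norm_num)
        have h10 : (2 * N' : ℝ) ^ (4 / 5 : ℝ) = 2 ^ (4 / 5 : ℝ) * (N' : ℝ) ^ (4 / 5 : ℝ) :=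
          Real.mul_rpow (by norm_num) (by linarith)
        have h11 : (2 : ℝ) ^ (4 / 5 : ℝ) ≤ 2 := by
          calc (2 : ℝ) ^ (4 / 5 : ℝ) ≤ 2 ^ (1 : ℝ) :=
                Real.rpow_le_rpow_of_exponent_le (by norm_num) (by norm_num)
            _ = 2 := Real.rpow_one 2
        have h12 : 0 ≤ (N' : ℝ) ^ (4 / 5 : ℝ) := by positivity
        nlinarith
      have hinj : (F.image (fun t => t / 2)).card = F.card := by
        apply card_image_of_injOn
        intro x hx y hy hxy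
        have h1 := Nat.two_mul_div_two_of_even (hF' x hx).2.1
        have h2 := Nat.two_mul_div_two_of_even (hF' y hy).2.1
        simp only at hxy
        omega
      have hcard : F.card ≤ cnt A n := by
        rw [← hinj]; exact card_le_card hsub
      have hcardr : (F.card : ℝ) ≤ cnt A n := by exact_mod_cast hcard
      have h13 : α * n ≤ 2 * c₀ * n := mul_le_mul_of_nonneg_right (min_le_left _ _) (by linarith)
      linarith
    · -- small scale
      have h1 : 1 ≤ cnt A n := by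
        unfold cnt
        rw [Nat.one_le_iff_ne_zero, ← Nat.pos_iff_ne_zero, card_pos]
        refine ⟨1, ?_⟩
        rw [mem_filter, mem_Icc]
        refine ⟨⟨le_rfl, hn1⟩, ?_⟩
        rw [hA, Set.mem_ofPred_eq]
        refine ⟨by norm_num, by norm_num, ?_⟩
        have h2 : (1 : ℝ) ≤ occ N (2 * 1) := by exact_mod_cast htwo N hN2
        have h3 : min (N : ℝ) (Real.exp ((2 * 1 : ℕ) : ℝ)) ≤ 9 := by
          refine (min_le_right _ _).trans ?_
          have h4 : Real.exp ((2 * 1 : ℕ) : ℝ) = Real.exp 1 * Real.exp 1 := by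
            rw [← Real.exp_add]; norm_num
          rw [h4]
          have h5 := Real.exp_one_lt_d9
          have h6 := Real.exp_pos 1
          nlinarith
        have h7 : (min (N : ℝ) (Real.exp ((2 * 1 : ℕ) : ℝ))) ^ (4 / 5 : ℝ) ≤ 9 := by
          calc (min (N : ℝ) (Real.exp ((2 * 1 : ℕ) : ℝ))) ^ (4 / 5 : ℝ) ≤ (9 : ℝ) ^ (4 / 5 : ℝ) :=
                Real.rpow_le_rpow (le_min (by linarith) (Real.exp_pos _).le) h3 (by norm_num)
            _ ≤ 9 ^ (1 : ℝ) := Real.rpow_le_rpow_of_exponent_le (by norm_num) (by norm_num)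
            _ = 9 := Real.rpow_one 9
        linarith
      have h1r : (1 : ℝ) ≤ cnt A n := by exact_mod_cast h1
      push Not at hbig
      have h2 : α * n ≤ 2 / Y₀ * n := mul_le_mul_of_nonneg_right (min_le_right _ _) (by linarith)
      have h3 : 2 / Y₀ * n ≤ 1 := by
        rw [div_mul_eq_mul_div, div_le_one (by linarith)]
        exact hbig.le
      linarith
  -- conclusion for large `N`
  have hlarge : ∀ N : ℕ, max N₀ 2 ≤ N → ∀ t : ℕ, Even t → (t : ℝ) ≤ c₀ * rcd N →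
      ∃ s : Multiset ℕ, s.card ≤ k ∧ s.sum = t ∧
        ∀ g ∈ s, 0 < g ∧ Even g ∧ 1 / 10 * (min (N : ℝ) (Real.exp g)) ^ (4 / 5 : ℝ) ≤ occ N g := by
    intro N hN t ht htY
    have h1 : t / 2 ≤ ⌊c₀ * rcd N / 2⌋₊ := by
      apply Nat.le_floor
      have h2 : 2 * (t / 2) = t := Nat.two_mul_div_two_of_even ht
      have h3 : (2 : ℝ) * ((t / 2 : ℕ) : ℝ) = t := by exact_mod_cast h2
      linarith
    obtain ⟨s, hs1, hs2, hs3⟩ := hk _ _ (hdens N hN) (t / 2) h1
    refine ⟨s.map (fun x => 2 * x), by simpa using hs1, ?_, ?_⟩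
    · rw [Multiset.sum_map_mul_left, Multiset.map_id', hs2]
      exact Nat.two_mul_div_two_of_even ht
    · intro g hg
      rw [Multiset.mem_map] at hg
      obtain ⟨x, hx, rfl⟩ := hg
      exact hs3 x hx
  -- all `N`
  set N₁ : ℕ := max N₀ 2 with hN₁
  set R : ℝ := ∑ N ∈ range N₁, |rcd N| with hR
  have hR0 : 0 ≤ R := Finset.sum_nonneg (fun _ _ => abs_nonneg _)
  refine ⟨min (min (1 / 10) c₀) (1 / (1 + R)), by positivity, k, fun N hN t ht htY => ?_⟩
  set c : ℝ := min (min (1 / 10) c₀) (1 / (1 + R)) with hc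
  have hc0 : 0 < c := by rw [hc]; positivity
  have hc1 : c ≤ 1 / 10 := (min_le_left _ _).trans (min_le_left _ _)
  have hc2 : c ≤ c₀ := (min_le_left _ _).trans (min_le_right _ _)
  have hc3 : c ≤ 1 / (1 + R) := min_le_right _ _
  rcases Nat.eq_zero_or_pos t with h0 | h0
  · subst h0; exact ⟨0, by simp, by simp, by simp⟩
  have ht2 : 2 ≤ t := by
    obtain ⟨m, hm⟩ := ht
    omega
  have ht2r : (2 : ℝ) ≤ t := by exact_mod_cast ht2
  have hrp : 0 < rcd N := by
    by_contra hneg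
    push Not at hneg
    have : c * rcd N ≤ 0 := mul_nonpos_of_nonneg_of_nonpos hc0.le hneg
    linarith
  rcases Nat.lt_or_ge N N₁ with h1 | h1
  · exfalso
    have h2 : |rcd N| ≤ R := Finset.single_le_sum (f := fun N : ℕ => |rcd (N : ℝ)|)
      (fun _ _ => abs_nonneg _) (Finset.mem_range.2 h1)
    have h3 : rcd N ≤ R := (le_abs_self _).trans h2
    have h4 : c * rcd N ≤ 1 / (1 + R) * R := mul_le_mul hc3 h3 hrp.le (by positivity)
    have h5 : 1 / (1 + R) * R ≤ 1 := by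
      rw [div_mul_eq_mul_div, one_mul, div_le_one (by linarith)]; linarith
    linarith
  · obtain ⟨s, hs1, hs2, hs3⟩ := hlarge N h1 t ht
      (htY.trans (mul_le_mul_of_nonneg_right hc2 hrp.le))
    refine ⟨s, hs1, hs2, fun g hg => ?_⟩
    obtain ⟨h2, h3, h4⟩ := hs3 g hg
    refine ⟨h2, h3, le_trans ?_ h4⟩
    exact mul_le_mul_of_nonneg_right hc1 (by positivity)

end Pool.Agent.Run7.h254.GB
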