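import Mathlib

/-!
# Signed sums of boundedly many elements of a dense subset of a box
-/

set_option autoImplicit false

namespace Pool.Agent.Run7.h254.GB

open Finset

/-- `w` is a sum of at most `n` elements of `A` and of `-A`. -/
def Sg {G : Type} [AddCommGroup G] (A : Set G) (n : ℕ) (w : G) : Prop :=
  ∃ P Q : Multiset G, P.card + Q.card ≤ n ∧ w = P.sum - Q.sum ∧ (∀ v ∈ P, v ∈ A) ∧ ∀ v ∈ Q, v ∈ A

section

variable {G : Type} [AddCommGroup G] {A B : Set G}

theorem Sg.zero (A : Set G) (n : ℕ) : Sg A n 0 := ⟨0, 0, by simp, by simp, by simp, by simp⟩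

theorem Sg.of_mem {a : G} (h : a ∈ A) : Sg A 1 a := ⟨{a}, 0, by simp, by simp, by simpa using h, by simp⟩

theorem Sg.neg {n : ℕ} {w : G} (h : Sg A n w) : Sg A n (-w) := by
  obtain ⟨P, Q, h1, h2, h3, h4⟩ := h
  exact ⟨Q, P, by omega, by rw [h2]; abel, h4, h3⟩

theorem Sg.add {m n : ℕ} {v w : G} (h : Sg A m v) (h' : Sg A n w) : Sg A (m + n) (v + w) := by
  obtain ⟨P, Q, h1, h2, h3, h4⟩ := h
  obtain ⟨P', Q', h1', h2', h3', h4'⟩ := h'
  refine ⟨P + P', Q + Q', ?_, ?_, ?_, ?_⟩
  · rw [Multiset.card_add, Multiset.card_add]; omega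
  · rw [Multiset.sum_add, Multiset.sum_add, h2, h2']; abel
  · intro v hv
    rcases Multiset.mem_add.1 hv with h | h
    · exact h3 v h
    · exact h3' v h
  · intro v hv
    rcases Multiset.mem_add.1 hv with h | h
    · exact h4 v h
    · exact h4' v h

theorem Sg.mono {m n : ℕ} {w : G} (h : Sg A m w) (hmn : m ≤ n) (hAB : A ⊆ B) : Sg B n w := by
  obtain ⟨P, Q, h1, h2, h3, h4⟩ := h
  exact ⟨P, Q, h1.trans hmn, h2, fun v hv => hAB (h3 v hv), fun v hv => hAB (h4 v hv)⟩

theorem Sg.nsmul {m : ℕ} {w : G} (h : Sg A m w) (j : ℕ) : Sg A (j * m) (j • w) := by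
  induction j with
  | zero => rw [zero_smul]; exact Sg.zero A _
  | succ j ih =>
    have := ih.add h
    rw [add_smul, one_smul]
    exact this.mono (by rw [Nat.succ_mul]) le_rfl

theorem Sg.zsmul {m : ℕ} {w : G} (h : Sg A m w) (j : ℤ) : Sg A (j.natAbs * m) (j • w) := by
  rcases Int.natAbs_eq j with h1 | h1
  · have := h.nsmul j.natAbs
    have e : j • w = j.natAbs • w := by
      conv_lhs => rw [h1]
      rw [natCast_zsmul]
    rw [e]; exact this
  · have := (h.nsmul j.natAbs).neg
    have e : j • w = -(j.natAbs • w) := by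
      conv_lhs => rw [h1]
      rw [neg_smul, natCast_zsmul]
    rw [e]; exact this

theorem Sg.sum {ι : Type} (s : Finset ι) (f : ι → G) (m : ℕ) (h : ∀ i ∈ s, Sg A m (f i)) :
    Sg A (s.card * m) (∑ i ∈ s, f i) := by
  classical
  induction s using Finset.induction_on with
  | empty => simpa using Sg.zero A 0
  | insert i s hi ih =>
    rw [sum_insert hi, card_insert_of_notMem hi]
    have h1 := (h i (mem_insert_self i s)).add (ih (fun j hj => h j (mem_insert_of_mem hj)))
    exact h1.mono (by rw [Nat.succ_mul]; omega) le_rfl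

theorem Sg.of_closure {w : G} (h : w ∈ AddSubgroup.closure A) : ∃ n, Sg A n w := by
  induction h using AddSubgroup.closure_induction with
  | mem x hx => exact ⟨1, Sg.of_mem hx⟩
  | zero => exact ⟨0, Sg.zero A 0⟩
  | add x y _ _ hx hy =>
    obtain ⟨m, hm⟩ := hx
    obtain ⟨n, hn⟩ := hy
    exact ⟨m + n, hm.add hn⟩
  | neg x _ hx =>
    obtain ⟨m, hm⟩ := hx
    exact ⟨m, hm.neg⟩

theorem Sg.mem_closure {n : ℕ} {w : G} (h : Sg A n w) : w ∈ AddSubgroup.closure A := by
  obtain ⟨P, Q, -, rfl, h3, h4⟩ := h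
  refine sub_mem ?_ ?_
  · exact multiset_sum_mem P (fun v hv => AddSubgroup.subset_closure (h3 v hv))
  · exact multiset_sum_mem Q (fun v hv => AddSubgroup.subset_closure (h4 v hv))

end

variable {k : ℕ}

/-- **Dense sets.** Let `A` be a set of vectors with coordinates in `[0, Y]` and `(s + 1) |A| > (2 Y + 1)^k`. Then every
vector whose coordinates are multiples `s! t`, `|t| s ≤ Y`, is a signed sum of at most `2 k s!` elements of `A`. -/
theorem dense_sg (A : Finset (Fin k → ℤ)) (Y s : ℕ) (hA : ∀ v ∈ A, ∀ i, 0 ≤ v i ∧ v i ≤ Y)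
    (hcard : (2 * Y + 1) ^ k < (s + 1) * A.card) (t : Fin k → ℤ) (ht : ∀ i, |t i| * s ≤ Y) :
    Sg (A : Set (Fin k → ℤ)) (k * (2 * s.factorial)) (fun i => (s.factorial : ℤ) * t i) := by
  classical
  have axis : ∀ (j : Fin k) (τ : ℕ), 1 ≤ τ → τ * s ≤ Y →
      Sg (A : Set (Fin k → ℤ)) (2 * s.factorial) (Pi.single j ((s.factorial : ℤ) * τ)) := by
    intro j τ hτ hτY
    have hmaps : ∀ p ∈ (range (s + 1)) ×ˢ A, (p.2 + Pi.single j ((p.1 : ℤ) * τ)) ∈
        Fintype.piFinset (fun _ : Fin k => Icc (0 : ℤ) (2 * Y)) := by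
      intro p hp
      rw [mem_product, mem_range] at hp
      rw [Fintype.mem_piFinset]
      intro i
      have h1 := hA p.2 hp.2 i
      rw [mem_Icc, Pi.add_apply]
      have h2 : (p.1 : ℤ) * τ ≤ Y := by
        have h3 : p.1 * τ ≤ Y := le_trans (by
          rw [mul_comm]; exact Nat.mul_le_mul_left τ (by omega)) hτY
        exact_mod_cast h3
      have h2' : (0 : ℤ) ≤ (p.1 : ℤ) * τ := by positivity
      by_cases hij : i = j
      · subst hij
        rw [Pi.single_eq_same]
        constructor <;> linarith [h1.1, h1.2]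
      · rw [Pi.single_eq_of_ne hij]
        constructor <;> linarith [h1.1, h1.2]
    have hc : (Fintype.piFinset (fun _ : Fin k => Icc (0 : ℤ) (2 * Y))).card <
        ((range (s + 1)) ×ˢ A).card := by
      rw [Fintype.card_piFinset, card_product, card_range]
      simp only [Int.card_Icc, prod_const, card_univ, Fintype.card_fin]
      have : (2 * (Y : ℤ) + 1 - 0).toNat = 2 * Y + 1 := by omega
      rw [this]
      exact hcard
    obtain ⟨p, hp, p', hp', hne, heq⟩ := exists_ne_map_eq_of_card_lt_of_maps_to hc hmaps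
    rw [mem_product, mem_range] at hp hp'
    -- the first coordinates differ
    have hne1 : p.1 ≠ p'.1 := by
      intro h
      apply hne
      rw [h] at heq
      exact Prod.ext h (add_right_cancel heq)
    have main : ∀ (a b : ℕ) (v w : Fin k → ℤ), a < b → b ≤ s → v ∈ A → w ∈ A →
        v + Pi.single j ((a : ℤ) * τ) = w + Pi.single j ((b : ℤ) * τ) →
        Sg (A : Set (Fin k → ℤ)) (2 * s.factorial) (Pi.single j ((s.factorial : ℤ) * τ)) := by
      intro a b v w hab hb hv hw h
      have h1 : v - w = Pi.single j (((b - a : ℕ) : ℤ) * τ) := by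
        have h2 : v - w = Pi.single j ((b : ℤ) * τ) - Pi.single j ((a : ℤ) * τ) := by
          rw [sub_eq_sub_iff_add_eq_add]
          rw [h, add_comm]
        rw [h2, ← Pi.single_sub]
        congr 1
        rw [Nat.cast_sub hab.le]; ring
      obtain ⟨m, hm⟩ : (b - a) ∣ s.factorial := Nat.dvd_factorial (by omega) (by omega)
      have h3 : Pi.single j ((s.factorial : ℤ) * τ) = m • (v - w) := by
        rw [h1, ← Pi.single_smul]
        congr 1
        rw [hm]
        simp only [nsmul_eq_mul]
        push_cast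
        ring
      rw [h3]
      have h4 : Sg (A : Set (Fin k → ℤ)) 2 (v - w) := by
        rw [sub_eq_add_neg]
        exact (Sg.of_mem (by exact_mod_cast hv)).add (Sg.of_mem (by exact_mod_cast hw)).neg
      refine (h4.nsmul m).mono ?_ le_rfl
      have : m ≤ s.factorial := Nat.le_of_dvd (Nat.factorial_pos s) ⟨b - a, by rw [hm]; ring⟩
      nlinarith
    rcases lt_or_gt_of_ne hne1 with h | h
    · exact main p.1 p'.1 p.2 p'.2 h (by omega) hp.2 hp'.2 heq
    · exact main p'.1 p.1 p'.2 p.2 h (by omega) hp'.2 hp.2 heq.symm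
  have hdec : (fun i => (s.factorial : ℤ) * t i) = ∑ j : Fin k, Pi.single j ((s.factorial : ℤ) * t j) := by
    funext i
    rw [Finset.sum_apply]
    simp [Pi.single_apply]
  rw [hdec]
  have h5 := Sg.sum (A := (A : Set (Fin k → ℤ))) (Finset.univ : Finset (Fin k))
    (fun j => Pi.single j ((s.factorial : ℤ) * t j)) (2 * s.factorial) (fun j _ => by
      rcases Int.natAbs_eq (t j) with h | h
      · rcases Nat.eq_zero_or_pos (t j).natAbs with h0 | h0
        · have : t j = 0 := by omega
          rw [this, mul_zero, Pi.single_zero]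
          exact Sg.zero _ _
        · have h1 := ht j
          have h2 : (t j).natAbs * s ≤ Y := by
            have h3 : |t j| = ((t j).natAbs : ℤ) := (Int.natCast_natAbs (t j)).symm
            rw [h3] at h1
            exact_mod_cast h1
          have h4 := axis j (t j).natAbs h0 h2
          rw [← h] at h4
          exact h4
      · rcases Nat.eq_zero_or_pos (t j).natAbs with h0 | h0
        · have : t j = 0 := by omega
          rw [this, mul_zero, Pi.single_zero]
          exact Sg.zero _ _
        · have h1 := ht j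
          have h2 : (t j).natAbs * s ≤ Y := by
            have h3 : |t j| = ((t j).natAbs : ℤ) := (Int.natCast_natAbs (t j)).symm
            rw [h3] at h1
            exact_mod_cast h1
          have h4 := (axis j (t j).natAbs h0 h2).neg
          rw [← Pi.single_neg] at h4
          have h6 : -((s.factorial : ℤ) * ((t j).natAbs : ℤ)) = (s.factorial : ℤ) * t j := by
            conv_rhs => rw [h]
            ring
          rw [h6] at h4
          exact h4)
  simpa using h5

end Pool.Agent.Run7.h254.GB
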