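import Mathlib
import Pool.Agent.Run7.h254.GB.Sgn

/-!
# The vectors of `k` successive gaps between odd primes generate all even vectors
-/

set_option autoImplicit false

namespace Pool.Agent.Run7.h254.GB

open Finset

/-- the vector of the `k` successive gaps after the prime with index `s` -/
noncomputable def gv (k s : ℕ) : Fin k → ℤ :=
  fun i => (Nat.nth Nat.Prime (s + i + 1) : ℤ) - Nat.nth Nat.Prime (s + i)

/-- half of the gap after the prime with index `s` -/
noncomputable def hg (s : ℕ) : ℤ := ((Nat.nth Nat.Prime (s + 1) : ℤ) - Nat.nth Nat.Prime s) / 2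

theorem nth_gt {s : ℕ} (hs : 1 ≤ s) : 2 < Nat.nth Nat.Prime s := by
  have h1 : Nat.nth Nat.Prime 0 < Nat.nth Nat.Prime s :=
    Nat.nth_strictMono Nat.infinite_setOfPred_prime hs
  have h2 : 2 ≤ Nat.nth Nat.Prime 0 := (Nat.prime_nth_prime 0).two_le
  omega

theorem nth_odd {s : ℕ} (hs : 1 ≤ s) : Nat.nth Nat.Prime s % 2 = 1 :=
  (Nat.prime_nth_prime s).eq_two_or_odd.resolve_left (by have := nth_gt hs; omega)

theorem two_hg {s : ℕ} (hs : 1 ≤ s) : 2 * hg s = (Nat.nth Nat.Prime (s + 1) : ℤ) - Nat.nth Nat.Prime s := by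
  unfold hg
  have h1 := nth_odd hs
  have h2 := nth_odd (s := s + 1) (by omega)
  omega

/-- not all gaps from some index on are divisible by `2 ℓ` -/
theorem not_eventually {ℓ : ℕ} (hℓ : 2 ≤ ℓ) (s₀ : ℕ) (hs₀ : 1 ≤ s₀) :
    ¬ ∀ t, s₀ ≤ t → ((ℓ : ℕ) : ℤ) ∣ hg t := by
  intro h
  have key : ∀ j : ℕ, ((2 * ℓ : ℕ) : ℤ) ∣ (Nat.nth Nat.Prime (s₀ + j) : ℤ) - Nat.nth Nat.Prime s₀ := by
    intro j
    induction j with
    | zero => simp
    | succ j ih =>
      obtain ⟨c, hc⟩ := h (s₀ + j) (by omega)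
      obtain ⟨d, hd⟩ := ih
      have h1 := two_hg (s := s₀ + j) (by omega)
      refine ⟨c + d, ?_⟩
      rw [← add_assoc]
      push_cast at hd ⊢
      have : (Nat.nth Nat.Prime (s₀ + j + 1) : ℤ) = 2 * hg (s₀ + j) + Nat.nth Nat.Prime (s₀ + j) := by
        linarith
      rw [this, hc]
      linarith
  haveI : NeZero (2 * ℓ) := ⟨by omega⟩
  have hall : ∀ a : ZMod (2 * ℓ), IsUnit a → a = ((Nat.nth Nat.Prime s₀ : ℕ) : ZMod (2 * ℓ)) := by
    intro a ha
    obtain ⟨p, hp1, hp2, hp3⟩ := Nat.forall_exists_prime_gt_and_eq_mod ha (Nat.nth Nat.Prime s₀)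
    have h1 : Nat.nth Nat.Prime (Nat.count Nat.Prime p) = p := Nat.nth_count hp2
    have h2 : s₀ < Nat.count Nat.Prime p := by
      rw [← (Nat.nth_strictMono Nat.infinite_setOfPred_prime).lt_iff_lt, h1]
      exact hp1
    have h3 := key (Nat.count Nat.Prime p - s₀)
    rw [Nat.add_sub_cancel' h2.le, h1] at h3
    have h4 := (ZMod.intCast_zmod_eq_zero_iff_dvd _ (2 * ℓ)).2 h3
    push_cast at h4
    rw [← hp3]
    have h5 : ((p : ℕ) : ZMod (2 * ℓ)) - ((Nat.nth Nat.Prime s₀ : ℕ) : ZMod (2 * ℓ)) = 0 := by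
      exact_mod_cast h4
    exact sub_eq_zero.1 h5
  have h1 := hall 1 isUnit_one
  have h2 := hall (-1) isUnit_one.neg
  have h3 : (1 : ZMod (2 * ℓ)) = -1 := h1.trans h2.symm
  have h4 : ((2 : ℕ) : ZMod (2 * ℓ)) = 0 := by
    have h5 : (1 : ZMod (2 * ℓ)) + 1 = 0 := by
      nth_rewrite 1 [h3]; simp
    rw [← h5]; norm_num
  have h5 := (ZMod.natCast_eq_zero_iff 2 (2 * ℓ)).1 h4
  have h6 := Nat.le_of_dvd (by norm_num) h5
  omega

theorem gen {k : ℕ} (L : AddSubgroup (Fin k → ℤ)) (hL : ∀ s, 1 ≤ s → gv k s ∈ L) (M : ℕ) (hM : 1 ≤ M)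
    (hML : ∀ u : Fin k → ℤ, (M : ℤ) • u ∈ L)
    (hstr : ∀ q : ℕ, 1 ≤ q → ∃ s, 1 ≤ s ∧ ∀ i : Fin k, (q : ℤ) ∣ hg (s + i)) :
    ∀ w : Fin k → ℤ, (∀ i, Even (w i)) → w ∈ L := by
  classical
  -- the halves
  set L' : AddSubgroup (Fin k → ℤ) := L.comap (zsmulAddGroupHom (2 : ℤ)) with hL'
  have memL' : ∀ u, u ∈ L' ↔ (2 : ℤ) • u ∈ L := fun u => Iff.rfl
  have hhv : ∀ s, 1 ≤ s → (fun i : Fin k => hg (s + i)) ∈ L' := by
    intro s hs
    rw [memL']
    have : (2 : ℤ) • (fun i : Fin k => hg (s + i)) = gv k s := by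
      funext i
      rw [Pi.smul_apply, smul_eq_mul, two_hg (by omega)]
      rfl
    rw [this]; exact hL s hs
  -- the key claim
  have key : ∀ ℓ : ℕ, ℓ.Prime → ∀ u : Fin k → ℤ, ∃ z ∈ L', ∃ u' : Fin k → ℤ, u = z + (ℓ : ℤ) • u' := by
    intro ℓ hℓ u
    haveI : Fact ℓ.Prime := ⟨hℓ⟩
    set red : (Fin k → ℤ) →+ (Fin k → ZMod ℓ) :=
      { toFun := fun v i => ((v i : ℤ) : ZMod ℓ)
        map_zero' := by funext i; simp
        map_add' := by intro v w; funext i; simp } with hred
    have red_apply : ∀ v i, red v i = ((v i : ℤ) : ZMod ℓ) := fun v i => rfl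
    set S : Submodule (ZMod ℓ) (Fin k → ZMod ℓ) := AddSubgroup.toZModSubmodule ℓ (L'.map red) with hS
    have memS : ∀ v, v ∈ S ↔ ∃ z ∈ L', red z = v := by
      intro v
      rw [hS, AddSubgroup.mem_toZModSubmodule, AddSubgroup.mem_map]
    have hStop : S = ⊤ := by
      by_contra hne
      obtain ⟨f, hf0, hfS⟩ := Submodule.exists_le_ker_of_lt_top S (lt_top_iff_ne_top.2 hne)
      set a : Fin k → ZMod ℓ := fun i => f (fun j => if i = j then 1 else 0) with ha
      have hfa : ∀ v, f v = ∑ i, v i * a i := by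
        intro v
        rw [LinearMap.pi_apply_eq_sum_univ f v]
        simp [ha, smul_eq_mul]
      have hex : ∃ i, a i ≠ 0 := by
        by_contra hall
        push Not at hall
        apply hf0
        ext v
        rw [LinearMap.comp_apply, hfa]
        simp [hall]
      -- the largest index
      obtain ⟨j, hj, hjmax⟩ : ∃ j, a j ≠ 0 ∧ ∀ i, j < i → a i = 0 := by
        have hne' : (univ.filter (fun i => a i ≠ 0)).Nonempty := by
          obtain ⟨i, hi⟩ := hex
          exact ⟨i, by simp [hi]⟩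
        refine ⟨(univ.filter (fun i => a i ≠ 0)).max' hne', ?_, ?_⟩
        · have := Finset.max'_mem _ hne'
          rw [mem_filter] at this
          exact this.2
        · intro i hi
          by_contra h
          have := Finset.le_max' (univ.filter (fun i => a i ≠ 0)) i (by simp [h])
          exact absurd hi (not_lt.2 this)
      have hrec : ∀ s, 1 ≤ s → ∑ i : Fin k, ((hg (s + i) : ℤ) : ZMod ℓ) * a i = 0 := by
        intro s hs
        have h1 : red (fun i : Fin k => hg (s + i)) ∈ S := (memS _).2 ⟨_, hhv s hs, rfl⟩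
        have h2 := hfS h1
        rw [LinearMap.mem_ker, hfa] at h2
        exact h2
      obtain ⟨s₀, hs₀, hstring⟩ := hstr ℓ hℓ.one_lt.le
      have hzero : ∀ n, ((hg (s₀ + n) : ℤ) : ZMod ℓ) = 0 := by
        intro n
        induction n using Nat.strong_induction_on with
        | _ n ih =>
          rcases Nat.lt_or_ge n k with hn | hn
          · exact (ZMod.intCast_zmod_eq_zero_iff_dvd _ ℓ).2 (hstring ⟨n, hn⟩)
          · have hjk := j.isLt
            have h1 := hrec (s₀ + n - j) (by omega)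
            rw [Finset.sum_eq_single j] at h1
            · have e : s₀ + n - (j : ℕ) + (j : ℕ) = s₀ + n := by omega
              rw [e] at h1
              exact (mul_eq_zero.1 h1).resolve_right hj
            · intro i _ hij
              rcases lt_or_gt_of_ne hij with h2 | h2
              · have h3 : (i : ℕ) < j := h2
                have e : s₀ + n - (j : ℕ) + (i : ℕ) = s₀ + (n - j + i) := by omega
                rw [e, ih (n - j + i) (by omega), zero_mul]
              · rw [hjmax i h2, mul_zero]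
            · intro h; exact absurd (mem_univ j) h
      refine not_eventually hℓ.two_le s₀ hs₀ (fun t ht => ?_)
      have := hzero (t - s₀)
      rw [Nat.add_sub_cancel' ht] at this
      exact (ZMod.intCast_zmod_eq_zero_iff_dvd _ ℓ).1 this
    obtain ⟨z, hz, hzu⟩ := (memS (red u)).1 (by rw [hStop]; exact Submodule.mem_top)
    have hdiv : ∀ i, (ℓ : ℤ) ∣ u i - z i := by
      intro i
      rw [← ZMod.intCast_zmod_eq_zero_iff_dvd]
      have h1 := congrFun hzu i
      rw [red_apply, red_apply] at h1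
      push_cast
      rw [h1, sub_self]
    choose u' hu' using hdiv
    refine ⟨z, hz, u', ?_⟩
    funext i
    rw [Pi.add_apply, Pi.smul_apply, smul_eq_mul, ← hu' i]
    ring
  -- the least `N`
  have hex : ∃ N : ℕ, 1 ≤ N ∧ ∀ u : Fin k → ℤ, (N : ℤ) • u ∈ L' := by
    refine ⟨M, hM, fun u => ?_⟩
    rw [memL', smul_comm]
    exact hML _
  have hN := Nat.find_spec hex
  set N := Nat.find hex with hNdef
  have hN1 : N = 1 := by
    by_contra hne
    have hℓ : (Nat.minFac N).Prime := Nat.minFac_prime hne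
    obtain ⟨m, hm⟩ := Nat.minFac_dvd N
    have hm1 : 1 ≤ m := by
      rcases Nat.eq_zero_or_pos m with h | h
      · rw [h, mul_zero] at hm; omega
      · exact h
    have hlt : m < N := by
      have := hℓ.two_le
      nlinarith
    refine Nat.find_min hex hlt ⟨hm1, fun u => ?_⟩
    obtain ⟨z, hz, u', hu'⟩ := key (Nat.minFac N) hℓ u
    rw [hu', smul_add, smul_smul]
    refine add_mem (AddSubgroup.zsmul_mem _ hz _) ?_
    have e : (m : ℤ) * (Nat.minFac N : ℤ) = (N : ℤ) := by
      have : m * Nat.minFac N = N := by rw [mul_comm]; exact hm.symm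
      exact_mod_cast this
    rw [e]; exact hN.2 u'
  intro w hw
  choose u hu using hw
  have h1 := hN.2 u
  rw [hN1, memL'] at h1
  have h2 : w = (2 : ℤ) • ((1 : ℕ) : ℤ) • u := by
    funext i
    simp only [Pi.smul_apply, smul_eq_mul, Nat.cast_one, one_mul]
    rw [hu i]; ring
  rw [h2]; exact h1

end Pool.Agent.Run7.h254.GB
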