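import Mathlib
import Pool.Agent.Run7.h254.GB.Basis

/-!
# From positive density at the record scale to a basis consisting of gaps of record size
-/

set_option autoImplicit false

namespace Pool.Agent.Run7.h254.GB

open Finset Classical Filter

/-- for large `N` the scale `c rcd N` is larger than `log (N + 1)` and than a given constant -/
theorem rcd_large {c : ℝ} (hc : 0 < c) (B : ℝ) : ∃ N₁ : ℕ, ∀ N : ℕ, N₁ ≤ N →
    Real.log ((N + 1 : ℕ) : ℝ) ≤ c * rcd N ∧ B ≤ c * rcd N := by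
  have t0 : Tendsto (fun N : ℕ => (N : ℝ)) atTop atTop := tendsto_natCast_atTop_atTop
  have t1 := Real.tendsto_log_atTop.comp t0
  have t2 := Real.tendsto_log_atTop.comp t1
  have t4 := Real.tendsto_log_atTop.comp (Real.tendsto_log_atTop.comp t2)
  have h := (((t0.eventually_ge_atTop (2 : ℝ)).and (t1.eventually_ge_atTop (1 + |B|))).and
    ((t2.eventually_ge_atTop (8 / c + 2)).and (t4.eventually_ge_atTop (1 : ℝ))))
  obtain ⟨N₁, hN₁⟩ := Filter.eventually_atTop.1 h
  refine ⟨N₁, fun N hN => ?_⟩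
  obtain ⟨⟨h0, h1⟩, h2, h4⟩ := hN₁ N hN
  simp only [Function.comp_apply] at h1 h2 h4
  have h8 : 0 < 8 / c := by positivity
  have hB := le_abs_self B
  have hB0 := abs_nonneg B
  have h5 := rcd_lower (x := (N : ℝ)) (by linarith) (by linarith) h4
  have h6 : 2 / c ≤ Real.log (Real.log (N : ℝ)) / 4 := by
    have : 8 / c / 4 = 2 / c := by ring
    linarith
  have h7 : Real.log (N : ℝ) * (2 / c) ≤ rcd N :=
    (mul_le_mul_of_nonneg_left h6 (by linarith)).trans h5
  have h9 : 2 * Real.log (N : ℝ) ≤ c * rcd N := by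
    calc 2 * Real.log (N : ℝ) = c * (Real.log (N : ℝ) * (2 / c)) := by field_simp
      _ ≤ c * rcd N := mul_le_mul_of_nonneg_left h7 hc.le
  constructor
  · refine le_trans ?_ h9
    have h10 : ((N + 1 : ℕ) : ℝ) ≤ (N : ℝ) ^ 2 := by
      push_cast
      nlinarith
    calc Real.log ((N + 1 : ℕ) : ℝ) ≤ Real.log ((N : ℝ) ^ 2) :=
          Real.log_le_log (by positivity) h10
      _ = 2 * Real.log (N : ℝ) := by rw [Real.log_pow]; norm_num
  · linarith

theorem early_of (occ : ℕ → ℕ → ℕ)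
    (hrec : ∃ c : ℝ, 0 < c ∧ ∃ N₀ : ℕ, ∀ N : ℕ, N₀ ≤ N →
      ∀ Y : ℝ, Real.log N ≤ Y → Y ≤ c * rcd N →
      ∃ F : Finset ℕ, c * Y ≤ F.card ∧
        ∀ t ∈ F, 0 < t ∧ Even t ∧ (t : ℝ) ≤ Y ∧ (N : ℝ) ^ (4 / 5 : ℝ) ≤ occ N t) :
    ∃ c : ℝ, 0 < c ∧ ∀ N₀ : ℕ, ∃ k : ℕ, ∀ t : ℕ, Even t →
      ∃ s : Multiset ℕ, s.card ≤ k ∧ s.sum = t ∧
        ∀ g ∈ s, g = 2 ∨ (0 < g ∧ Even g ∧ ∃ N : ℕ, N₀ ≤ N ∧ c * rcd N ≤ g ∧
          (N : ℝ) ^ (4 / 5 : ℝ) ≤ occ (N + 1) g) := by
  obtain ⟨c₀, hc₀, N₂, hN₂⟩ := hrec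
  refine ⟨c₀ ^ 2 / 2, by positivity, fun N₀ => ?_⟩
  obtain ⟨N₁, hN₁⟩ := rcd_large hc₀ 1
  -- the starting point
  obtain ⟨M₁, hM₁⟩ : ∃ M₁ : ℕ, M₁ = max (max N₀ N₁) N₂ := ⟨_, rfl⟩
  have hM0 : N₀ ≤ M₁ := by omega
  have hM1 : N₁ ≤ M₁ := by omega
  have hM2 : N₂ ≤ M₁ := by omega
  set B : ℝ := c₀ * rcd M₁ with hB
  have hB1 : 1 ≤ B := (hN₁ M₁ hM1).2
  set α : ℝ := min (c₀ / 1) (1 / B) with hα
  have hα0 : 0 < α := by
    rw [hα]
    exact lt_min (by positivity) (by positivity)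
  obtain ⟨k, hk⟩ := schnirelmann α hα0
  refine ⟨k, fun t ht => ?_⟩
  obtain ⟨A, hA⟩ : ∃ A : Set ℕ, A = {m | 2 * m = 2 ∨ (0 < 2 * m ∧ Even (2 * m) ∧ ∃ N : ℕ, N₀ ≤ N ∧
      c₀ ^ 2 / 2 * rcd N ≤ ((2 * m : ℕ) : ℝ) ∧ (N : ℝ) ^ (4 / 5 : ℝ) ≤ occ (N + 1) (2 * m))} := ⟨_, rfl⟩
  have hdens : ∀ n : ℕ, 1 ≤ n → n ≤ t → α * n ≤ cnt A n := by
    intro n hn1 _
    have hnr : (1 : ℝ) ≤ n := by exact_mod_cast hn1
    by_cases hsmall : 2 * (n : ℝ) ≤ B
    · have h1 : 1 ≤ cnt A n := by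
        unfold cnt
        rw [Nat.one_le_iff_ne_zero, ← Nat.pos_iff_ne_zero, card_pos]
        refine ⟨1, ?_⟩
        rw [mem_filter, mem_Icc, hA]
        exact ⟨⟨le_rfl, hn1⟩, Or.inl rfl⟩
      have h1r : (1 : ℝ) ≤ cnt A n := by exact_mod_cast h1
      have h2 : α * n ≤ 1 / B * n := mul_le_mul_of_nonneg_right (min_le_right _ _) (by linarith)
      have h3 : 1 / B * n ≤ 1 := by
        rw [div_mul_eq_mul_div, div_le_one (by linarith)]
        linarith
      linarith
    · push Not at hsmall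
      -- the least `N ≥ M₁` with `2 n ≤ c₀ rcd N`
      have hex : ∃ N : ℕ, M₁ ≤ N ∧ 2 * (n : ℝ) ≤ c₀ * rcd N := by
        obtain ⟨N₃, hN₃⟩ := rcd_large hc₀ (2 * (n : ℝ))
        exact ⟨max M₁ N₃, le_max_left _ _, (hN₃ _ (le_max_right _ _)).2⟩
      obtain ⟨hN1, hN2⟩ := Nat.find_spec hex
      set N := Nat.find hex with hNdef
      have hne : N ≠ M₁ := by
        intro h
        rw [h] at hN2
        linarith
      obtain ⟨M, hM⟩ : ∃ M, N = M + 1 := ⟨N - 1, by omega⟩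
      have hMM : M₁ ≤ M := by omega
      have hM3 : c₀ * rcd M < 2 * (n : ℝ) := by
        by_contra hcon
        push Not at hcon
        exact Nat.find_min hex (m := M) (by omega) ⟨hMM, hcon⟩
      have hlog : Real.log ((N : ℕ) : ℝ) ≤ 2 * (n : ℝ) := by
        rw [hM]
        exact ((hN₁ M (by omega)).1).trans hM3.le
      obtain ⟨F, hF, hF'⟩ := hN₂ N (by omega) (2 * (n : ℝ)) hlog hN2
      -- the large elements of `F`
      set G : Finset ℕ := F.filter (fun t : ℕ => c₀ * n ≤ (t : ℝ)) with hG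
      have hGc : c₀ * n ≤ G.card := by
        have hsplit : F.card = G.card + (F.filter (fun t : ℕ => ¬ c₀ * n ≤ (t : ℝ))).card := by
          rw [hG]; exact (card_filter_add_card_filter_not (fun t : ℕ => c₀ * n ≤ (t : ℝ))).symm
        have hsm : ((F.filter (fun t : ℕ => ¬ c₀ * n ≤ (t : ℝ))).card : ℝ) ≤ c₀ * n := by
          have hsub : (F.filter (fun t : ℕ => ¬ c₀ * n ≤ (t : ℝ))) ⊆ Icc 1 ⌊c₀ * (n : ℝ)⌋₊ := by
            intro t ht
            rw [mem_filter] at ht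
            rw [mem_Icc]
            refine ⟨(hF' t ht.1).1, Nat.le_floor ?_⟩
            have := ht.2
            push Not at this
            exact this.le
          have h1 := card_le_card hsub
          rw [Nat.card_Icc, Nat.add_sub_cancel] at h1
          have h2 : ((F.filter (fun t : ℕ => ¬ c₀ * n ≤ (t : ℝ))).card : ℝ) ≤ (⌊c₀ * (n : ℝ)⌋₊ : ℕ) := by
            exact_mod_cast h1
          exact h2.trans (Nat.floor_le (by positivity))
        have h3 : (F.card : ℝ) = G.card + (F.filter (fun t : ℕ => ¬ c₀ * n ≤ (t : ℝ))).card := by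
          exact_mod_cast hsplit
        linarith
      have hsub : (G.image (fun t => t / 2)) ⊆ (Icc 1 n).filter (· ∈ A) := by
        intro m hm
        rw [mem_image] at hm
        obtain ⟨t, ht, rfl⟩ := hm
        rw [hG, mem_filter] at ht
        obtain ⟨h1, h2, h3, h4⟩ := hF' t ht.1
        have h5 : 2 * (t / 2) = t := Nat.two_mul_div_two_of_even h2
        have h6 : t ≤ 2 * n := by exact_mod_cast h3
        rw [mem_filter, mem_Icc]
        refine ⟨⟨by omega, by omega⟩, ?_⟩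
        rw [hA, Set.mem_ofPred_eq, h5]
        refine Or.inr ⟨h1, h2, M, by omega, ?_, ?_⟩
        · have h7 := ht.2
          calc c₀ ^ 2 / 2 * rcd M = c₀ / 2 * (c₀ * rcd M) := by ring
            _ ≤ c₀ / 2 * (2 * (n : ℝ)) := mul_le_mul_of_nonneg_left hM3.le (by positivity)
            _ = c₀ * n := by ring
            _ ≤ t := h7
        · rw [hM] at h4
          refine le_trans ?_ h4
          apply Real.rpow_le_rpow (by positivity) _ (by norm_num)
          push_cast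
          linarith
      have hinj : (G.image (fun t => t / 2)).card = G.card := by
        apply card_image_of_injOn
        intro x hx y hy hxy
        rw [hG, mem_coe, mem_filter] at hx hy
        have h1 := Nat.two_mul_div_two_of_even (hF' x hx.1).2.1
        have h2 := Nat.two_mul_div_two_of_even (hF' y hy.1).2.1
        simp only at hxy
        omega
      have hcard : G.card ≤ cnt A n := by
        rw [← hinj]; exact card_le_card hsub
      have hcardr : (G.card : ℝ) ≤ cnt A n := by exact_mod_cast hcard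
      have h13 : α * n ≤ c₀ / 1 * n := mul_le_mul_of_nonneg_right (min_le_left _ _) (by linarith)
      rw [div_one] at h13
      linarith
  obtain ⟨s, hs1, hs2, hs3⟩ := hk A t hdens (t / 2) (Nat.div_le_self _ _)
  refine ⟨s.map (fun x => 2 * x), by simpa using hs1, ?_, ?_⟩
  · rw [Multiset.sum_map_mul_left, Multiset.map_id', hs2]
    exact Nat.two_mul_div_two_of_even ht
  · intro g hg
    rw [Multiset.mem_map] at hg
    obtain ⟨x, hx, rfl⟩ := hg
    have h1 := hs3 x hx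
    rw [hA] at h1
    exact h1

end Pool.Agent.Run7.h254.GB
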