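import Mathlib
import Pool.Agent.Run7.h254.GB.Early

/-!
# First occurrences of prime gaps: positive density and a basis below the best known bound
-/

set_option autoImplicit false

namespace Pool.Agent.Run7.h254.GB

open Finset Classical Filter

/-- the bound for `log p(g)` that corresponds to the record scale -/
noncomputable def shk (g : ℝ) : ℝ :=
  g * (Real.log (Real.log g)) ^ 2 / ((Real.log g) ^ 2 * Real.log (Real.log (Real.log g)))

theorem arith {c : ℝ} (hc : 0 < c) : ∃ M₀ : ℕ, 2 ≤ M₀ ∧ ∀ M : ℕ, M₀ ≤ M → ∀ g : ℝ,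
    c ^ 2 / 2 * rcd M ≤ g → g ≤ c * rcd ((M + 1 : ℕ) : ℝ) →
    Real.log M ≤ 36 / c ^ 2 * shk g := by
  have t0 : Tendsto (fun N : ℕ => (N : ℝ)) atTop atTop := tendsto_natCast_atTop_atTop
  have t1 := Real.tendsto_log_atTop.comp t0
  have t2 := Real.tendsto_log_atTop.comp t1
  have t3 := Real.tendsto_log_atTop.comp t2
  have t4 := Real.tendsto_log_atTop.comp t3
  have hsq : ∀ᶠ x : ℝ in atTop, Real.log x ^ 2 ≤ x := by
    have h := (Real.isLittleO_pow_log_id_atTop (n := 2)).bound (c := 1) (by norm_num)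
    filter_upwards [h, eventually_ge_atTop (0 : ℝ)] with x hx hx0
    simp only [id, Real.norm_eq_abs, one_mul] at hx
    rw [abs_of_nonneg (by positivity), abs_of_nonneg hx0] at hx
    exact hx
  have t1' : Tendsto (fun N : ℕ => Real.log ((N + 1 : ℕ) : ℝ)) atTop atTop :=
    t1.comp (tendsto_add_atTop_nat 1)
  obtain ⟨N₁, hN₁⟩ := rcd_large (c := c ^ 2 / 2) (by positivity) 1
  have h := ((t1.eventually_ge_atTop (8 + 4 * c)).and (t2.eventually_ge_atTop (8 : ℝ))).and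
    ((t3.eventually_ge_atTop (3 : ℝ)).and ((t4.eventually_ge_atTop (1 : ℝ)).and
      (t1'.eventually hsq)))
  obtain ⟨N₂, hN₂⟩ := Filter.eventually_atTop.1 h
  refine ⟨max 2 (max N₁ N₂), le_max_left _ _, fun M hM g hg1 hg2 => ?_⟩
  have hM2 : 2 ≤ M := (le_max_left _ _).trans hM
  obtain ⟨⟨h1, h2⟩, h3, h4, h5⟩ := hN₂ M ((le_max_right _ _).trans ((le_max_right _ _).trans hM))
  have h6 := (hN₁ M ((le_max_left _ _).trans ((le_max_right _ _).trans hM))).1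
  simp only [Function.comp_apply] at h1 h2 h3 h4
  set L := Real.log (M : ℝ) with hL
  set L2 := Real.log L with hL2
  set L3 := Real.log L2 with hL3
  set L4 := Real.log L3 with hL4
  set L' := Real.log ((M + 1 : ℕ) : ℝ) with hL'
  have hMr : (2 : ℝ) ≤ M := by exact_mod_cast hM2
  have hLL' : L ≤ L' := Real.log_le_log (by linarith) (by push_cast; linarith)
  have hL'2 : L' ≤ 2 * L := by
    calc L' ≤ Real.log ((M : ℝ) ^ 2) := Real.log_le_log (by positivity) (by push_cast; nlinarith)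
      _ = 2 * L := by rw [Real.log_pow]; norm_num [hL]
  have hL8 : 8 ≤ L := by linarith
  -- the upper bound
  have hup : rcd ((M + 1 : ℕ) : ℝ) ≤ L' * L' := by
    unfold rcd
    rw [← hL']
    have a2 : L2 ≤ Real.log L' := Real.log_le_log (by linarith) hLL'
    have a3 : L3 ≤ Real.log (Real.log L') := Real.log_le_log (by linarith) a2
    have a4 : Real.log (Real.log (Real.log L')) ≤ Real.log (Real.log L') - 1 :=
      Real.log_le_sub_one_of_pos (by linarith)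
    have a5 : Real.log (Real.log (Real.log L')) ≤ (Real.log (Real.log L')) ^ 2 := by nlinarith
    have a6 : 0 < (Real.log (Real.log L')) ^ 2 := by
      have : 0 < Real.log (Real.log L') := by linarith
      positivity
    rw [div_le_iff₀ a6]
    have a7 : 0 ≤ L' * (Real.log L') ^ 2 := by
      have : 0 ≤ L' := by linarith
      positivity
    calc L' * Real.log L' ^ 2 * Real.log (Real.log (Real.log L'))
        ≤ L' * Real.log L' ^ 2 * (Real.log (Real.log L')) ^ 2 :=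
          mul_le_mul_of_nonneg_left a5 a7
      _ ≤ L' * L' * (Real.log (Real.log L')) ^ 2 := by
          apply mul_le_mul_of_nonneg_right _ a6.le
          exact mul_le_mul_of_nonneg_left h5 (by linarith)
  have hg3 : g ≤ L ^ 3 := by
    calc g ≤ c * rcd ((M + 1 : ℕ) : ℝ) := hg2
      _ ≤ c * (L' * L') := mul_le_mul_of_nonneg_left hup hc.le
      _ ≤ c * ((2 * L) * (2 * L)) := by
          apply mul_le_mul_of_nonneg_left _ hc.le
          exact mul_le_mul hL'2 hL'2 (by linarith) (by linarith)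
      _ = 4 * c * L ^ 2 := by ring
      _ ≤ L * L ^ 2 := mul_le_mul_of_nonneg_right (by linarith) (by positivity)
      _ = L ^ 3 := by ring
  have hg4 : L ≤ g := by linarith
  have b1 : L2 ≤ Real.log g := Real.log_le_log (by linarith) hg4
  have b2 : L3 ≤ Real.log (Real.log g) := Real.log_le_log (by linarith) b1
  have b3 : L4 ≤ Real.log (Real.log (Real.log g)) := Real.log_le_log (by linarith) b2
  have c1 : Real.log g ≤ 3 * L2 := by
    calc Real.log g ≤ Real.log (L ^ 3) := Real.log_le_log (by linarith) hg3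
      _ = 3 * L2 := by rw [Real.log_pow]; norm_num [hL2]
  have hlog3 : Real.log 3 ≤ 2 := by
    have := Real.log_le_sub_one_of_pos (show (0 : ℝ) < 3 by norm_num)
    linarith
  have hlog2 : Real.log 2 ≤ 1 := by
    have := Real.log_le_sub_one_of_pos (show (0 : ℝ) < 2 by norm_num)
    linarith
  have c2 : Real.log (Real.log g) ≤ 2 * L3 := by
    calc Real.log (Real.log g) ≤ Real.log (3 * L2) := Real.log_le_log (by linarith) c1
      _ = Real.log 3 + L3 := by rw [Real.log_mul (by norm_num) (by linarith)]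
      _ ≤ 2 * L3 := by linarith
  have c3 : Real.log (Real.log (Real.log g)) ≤ 2 * L4 := by
    calc Real.log (Real.log (Real.log g)) ≤ Real.log (2 * L3) := Real.log_le_log (by linarith) c2
      _ = Real.log 2 + L4 := by rw [Real.log_mul (by norm_num) (by linarith)]
      _ ≤ 2 * L4 := by linarith
  have hg0 : 0 < g := by linarith
  have hrcd : rcd (M : ℝ) * L3 ^ 2 = L * L2 ^ 2 * L4 := by
    unfold rcd
    rw [← hL, ← hL2, ← hL3, ← hL4]
    have : L3 ^ 2 ≠ 0 := by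
      have : 0 < L3 := by linarith
      positivity
    field_simp
  have hD0 : 0 < (Real.log g) ^ 2 * Real.log (Real.log (Real.log g)) := by
    have h1 : 0 < Real.log g := by linarith
    have h2 : 0 < Real.log (Real.log (Real.log g)) := by linarith
    positivity
  have hD : (Real.log g) ^ 2 * Real.log (Real.log (Real.log g)) ≤ (3 * L2) ^ 2 * (2 * L4) := by
    apply mul_le_mul _ c3 (by linarith) (by positivity)
    exact pow_le_pow_left₀ (by linarith) c1 2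
  have hkey : L * ((3 * L2) ^ 2 * (2 * L4)) ≤ 36 / c ^ 2 * (g * (Real.log (Real.log g)) ^ 2) := by
    have e1 : (L3 : ℝ) ^ 2 ≤ (Real.log (Real.log g)) ^ 2 := pow_le_pow_left₀ (by linarith) b2 2
    have e2 : c ^ 2 / 2 * rcd M * L3 ^ 2 ≤ g * (Real.log (Real.log g)) ^ 2 :=
      mul_le_mul hg1 e1 (by positivity) hg0.le
    have e3 : 36 / c ^ 2 * (c ^ 2 / 2 * rcd M * L3 ^ 2) = 18 * (L * L2 ^ 2 * L4) := by
      rw [← hrcd]
      field_simp
      ring
    calc L * ((3 * L2) ^ 2 * (2 * L4)) = 18 * (L * L2 ^ 2 * L4) := by ring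
      _ = 36 / c ^ 2 * (c ^ 2 / 2 * rcd M * L3 ^ 2) := e3.symm
      _ ≤ 36 / c ^ 2 * (g * (Real.log (Real.log g)) ^ 2) :=
          mul_le_mul_of_nonneg_left e2 (by positivity)
  unfold shk
  rw [← mul_div_assoc, le_div_iff₀ hD0]
  exact (mul_le_mul_of_nonneg_left hD (by linarith)).trans hkey

theorem nth_le_sq : ∃ N₁ : ℕ, ∀ N : ℕ, N₁ ≤ N → Nat.nth Nat.Prime N ≤ N ^ 2 := by
  refine ⟨1000, fun N hN => ?_⟩
  have hNr : (1000 : ℝ) ≤ N := by exact_mod_cast hN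
  have h := Chebyshev.pi_ge (N ^ 2)
  obtain ⟨s, hs⟩ : ∃ s : ℝ, s = Real.sqrt N := ⟨_, rfl⟩
  have hs2 : s ^ 2 = N := by rw [hs]; exact Real.sq_sqrt (by linarith)
  have hs0 : 0 ≤ s := by rw [hs]; exact Real.sqrt_nonneg _
  have hs31 : 31 ≤ s := by
    by_contra hcon
    push Not at hcon
    nlinarith
  have hlogN : Real.log N ≤ 2 * s := by
    have := log_le_sqrt (u := (N : ℝ)) (by linarith)
    rw [hs]; exact this
  have hlog0 : 0 < Real.log N := Real.log_pos (by linarith)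
  have hl2 : 0.69 ≤ Real.log 2 := by
    have := Real.log_two_gt_d9
    linarith
  have hN1 : Real.log ((N : ℝ) ^ 2 + 1) ≤ 2 * (N + 1) := by
    have h1 := log_le_sqrt (u := (N : ℝ) ^ 2 + 1) (by positivity)
    have h2 : Real.sqrt ((N : ℝ) ^ 2 + 1) ≤ N + 1 := by
      rw [Real.sqrt_le_left (by linarith)]
      nlinarith
    linarith
  have hpi : (N : ℝ) < Nat.primeCounting (N ^ 2) := by
    refine lt_of_lt_of_le ?_ h
    push_cast
    have h2 : Real.log ((N : ℝ) ^ 2) = 2 * Real.log N := by rw [Real.log_pow]; norm_num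
    rw [h2, lt_div_iff₀ (by linarith)]
    have h3 : (N : ℝ) * (2 * Real.log N) ≤ 4 * s ^ 3 := by
      rw [← hs2]
      have : s ^ 2 * (2 * Real.log (s ^ 2)) ≤ s ^ 2 * (2 * (2 * s)) := by
        apply mul_le_mul_of_nonneg_left _ (by positivity)
        rw [hs2]; linarith
      nlinarith
    have h4 : 0.69 * s ^ 4 ≤ (N : ℝ) ^ 2 * Real.log 2 := by
      have : (N : ℝ) ^ 2 = s ^ 4 := by rw [← hs2]; ring
      rw [this]
      have := mul_le_mul_of_nonneg_left hl2 (show 0 ≤ s ^ 4 by positivity)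
      linarith
    have h5 : Real.log ((N : ℝ) ^ 2 + 1) ≤ 2 * (s ^ 2 + 1) := by rw [hs2]; exact hN1
    have h6 : 4 * s ^ 3 + 2 * (s ^ 2 + 1) < 0.69 * s ^ 4 := by
      have g1 : 31 * s ^ 3 ≤ s ^ 4 := by
        have : s ^ 4 = s * s ^ 3 := by ring
        rw [this]
        exact mul_le_mul_of_nonneg_right hs31 (by positivity)
      have g2 : 31 * s ^ 2 ≤ s ^ 3 := by
        have : s ^ 3 = s * s ^ 2 := by ring
        rw [this]
        exact mul_le_mul_of_nonneg_right hs31 (by positivity)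
      nlinarith
    linarith
  have hpi' : N < Nat.primeCounting (N ^ 2) := by exact_mod_cast hpi
  have h7 : N < Nat.count Nat.Prime (N ^ 2 + 1) := hpi'
  have h8 := Nat.nth_lt_of_lt_count h7
  omega

theorem dens_of (occ : ℕ → ℕ → ℕ)
    (hrec : ∃ c : ℝ, 0 < c ∧ ∃ N₀ : ℕ, ∀ N : ℕ, N₀ ≤ N →
      ∀ Y : ℝ, Real.log N ≤ Y → Y ≤ c * rcd N →
      ∃ F : Finset ℕ, c * Y ≤ F.card ∧
        ∀ t ∈ F, 0 < t ∧ Even t ∧ (t : ℝ) ≤ Y ∧ (N : ℝ) ^ (4 / 5 : ℝ) ≤ occ N t) :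
    ∃ c : ℝ, 0 < c ∧ ∀ N₀ : ℕ, ∃ B : ℝ, 1 ≤ B ∧ ∀ n : ℕ, B < 2 * (n : ℝ) →
      ∃ G : Finset ℕ, c * n ≤ G.card ∧ ∀ t ∈ G, 0 < t ∧ Even t ∧ t ≤ 2 * n ∧
        ∃ M : ℕ, N₀ ≤ M ∧ c ^ 2 / 2 * rcd M ≤ t ∧ (t : ℝ) ≤ c * rcd ((M + 1 : ℕ) : ℝ) ∧
          (M : ℝ) ^ (4 / 5 : ℝ) ≤ occ (M + 1) t := by
  obtain ⟨c₀, hc₀, N₂, hN₂⟩ := hrec
  refine ⟨c₀, hc₀, fun N₀ => ?_⟩
  obtain ⟨N₁, hN₁⟩ := rcd_large hc₀ 1
  obtain ⟨M₁, hM₁⟩ : ∃ M₁ : ℕ, M₁ = max (max N₀ N₁) N₂ := ⟨_, rfl⟩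
  have hM0 : N₀ ≤ M₁ := by omega
  have hM1 : N₁ ≤ M₁ := by omega
  have hM2 : N₂ ≤ M₁ := by omega
  refine ⟨c₀ * rcd M₁, (hN₁ M₁ hM1).2, fun n hsmall => ?_⟩
  have hB1 : 1 ≤ c₀ * rcd M₁ := (hN₁ M₁ hM1).2
  have hex : ∃ N : ℕ, M₁ ≤ N ∧ 2 * (n : ℝ) ≤ c₀ * rcd N := by
    obtain ⟨N₃, hN₃⟩ := rcd_large hc₀ (2 * (n : ℝ))
    exact ⟨max M₁ N₃, le_max_left _ _, (hN₃ _ (le_max_right _ _)).2⟩
  obtain ⟨hN1, hN2⟩ := Nat.find_spec hex
  set N := Nat.find hex with hNdef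
  have hne : N ≠ M₁ := by
    intro h
    rw [h] at hN2
    linarith
  obtain ⟨M, hM⟩ : ∃ M, N = M + 1 := ⟨N - 1, by omega⟩
  have hMM : M₁ ≤ M := by omega
  have hM3 : c₀ * rcd M < 2 * (n : ℝ) := by
    by_contra hcon
    push Not at hcon
    exact Nat.find_min hex (m := M) (by omega) ⟨hMM, hcon⟩
  have hlog : Real.log ((N : ℕ) : ℝ) ≤ 2 * (n : ℝ) := by
    rw [hM]
    exact ((hN₁ M (by omega)).1).trans hM3.le
  obtain ⟨F, hF, hF'⟩ := hN₂ N (by omega) (2 * (n : ℝ)) hlog hN2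
  have hnr : (0 : ℝ) ≤ n := Nat.cast_nonneg n
  set G : Finset ℕ := F.filter (fun t : ℕ => c₀ * n ≤ (t : ℝ)) with hG
  refine ⟨G, ?_, ?_⟩
  · have hsplit : F.card = G.card + (F.filter (fun t : ℕ => ¬ c₀ * n ≤ (t : ℝ))).card := by
      rw [hG]; exact (card_filter_add_card_filter_not (fun t : ℕ => c₀ * n ≤ (t : ℝ))).symm
    have hsm : ((F.filter (fun t : ℕ => ¬ c₀ * n ≤ (t : ℝ))).card : ℝ) ≤ c₀ * n := by
      have hsub : (F.filter (fun t : ℕ => ¬ c₀ * n ≤ (t : ℝ))) ⊆ Icc 1 ⌊c₀ * (n : ℝ)⌋₊ := by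
        intro t ht
        rw [mem_filter] at ht
        rw [mem_Icc]
        refine ⟨(hF' t ht.1).1, Nat.le_floor ?_⟩
        have := ht.2
        push Not at this
        exact this.le
      have h1 := card_le_card hsub
      rw [Nat.card_Icc, Nat.add_sub_cancel] at h1
      have h2 : ((F.filter (fun t : ℕ => ¬ c₀ * n ≤ (t : ℝ))).card : ℝ) ≤ (⌊c₀ * (n : ℝ)⌋₊ : ℕ) := by
        exact_mod_cast h1
      exact h2.trans (Nat.floor_le (by positivity))
    have h3 : (F.card : ℝ) = G.card + (F.filter (fun t : ℕ => ¬ c₀ * n ≤ (t : ℝ))).card := by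
      exact_mod_cast hsplit
    linarith
  · intro t ht
    rw [hG, mem_filter] at ht
    obtain ⟨h1, h2, h3, h4⟩ := hF' t ht.1
    refine ⟨h1, h2, by exact_mod_cast h3, M, by omega, ?_, ?_, ?_⟩
    · calc c₀ ^ 2 / 2 * rcd M = c₀ / 2 * (c₀ * rcd M) := by ring
        _ ≤ c₀ / 2 * (2 * (n : ℝ)) := mul_le_mul_of_nonneg_left hM3.le (by positivity)
        _ = c₀ * n := by ring
        _ ≤ t := ht.2
    · rw [← hM]
      exact h3.trans hN2
    · rw [hM] at h4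
      refine le_trans ?_ h4
      apply Real.rpow_le_rpow (by positivity) _ (by norm_num)
      push_cast
      linarith

/-- the first prime which follows a gap of exact size `g` -/
noncomputable def fp (g : ℕ) : ℕ :=
  sInf {q | ∃ n, Nat.nth Nat.Prime (n + 1) = q ∧ Nat.nth Nat.Prime (n + 1) - Nat.nth Nat.Prime n = g}

theorem fp_le {M g : ℕ} (h : 0 < {n : ℕ | n < M + 1 ∧
    Nat.nth Nat.Prime (n + 1) - Nat.nth Nat.Prime n = g}.ncard) :
    (∃ n, Nat.nth Nat.Prime (n + 1) - Nat.nth Nat.Prime n = g) ∧ 0 < fp g ∧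
      fp g ≤ Nat.nth Nat.Prime (M + 1) := by
  have hne : {n : ℕ | n < M + 1 ∧
      Nat.nth Nat.Prime (n + 1) - Nat.nth Nat.Prime n = g}.Nonempty := Set.nonempty_of_ncard_ne_zero h.ne'
  obtain ⟨n, hn1, hn2⟩ := hne
  have hmem : Nat.nth Nat.Prime (n + 1) ∈ {q | ∃ n, Nat.nth Nat.Prime (n + 1) = q ∧
      Nat.nth Nat.Prime (n + 1) - Nat.nth Nat.Prime n = g} := ⟨n, rfl, hn2⟩
  refine ⟨⟨n, hn2⟩, ?_, ?_⟩
  · have h1 := Nat.sInf_mem (⟨_, hmem⟩ : {q | ∃ n, Nat.nth Nat.Prime (n + 1) = q ∧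
      Nat.nth Nat.Prime (n + 1) - Nat.nth Nat.Prime n = g}.Nonempty)
    obtain ⟨k, hk, -⟩ := h1
    unfold fp
    rw [← hk]
    exact (Nat.prime_nth_prime _).pos
  · have h1 : fp g ≤ Nat.nth Nat.Prime (n + 1) := Nat.sInf_le hmem
    refine h1.trans ?_
    exact (Nat.nth_le_nth Nat.infinite_setOfPred_prime).2 (by omega)

/-- `g` occurs and `log p(g) ≤ C shk g` -/
def Early (C : ℝ) (g : ℕ) : Prop :=
  (∃ n, Nat.nth Nat.Prime (n + 1) - Nat.nth Nat.Prime n = g) ∧ Real.log (fp g) ≤ C * shk g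

theorem shanks_dens
    (hrec : ∃ c : ℝ, 0 < c ∧ ∃ N₀ : ℕ, ∀ N : ℕ, N₀ ≤ N →
      ∀ Y : ℝ, Real.log N ≤ Y → Y ≤ c * rcd N →
      ∃ F : Finset ℕ, c * Y ≤ F.card ∧
        ∀ t ∈ F, 0 < t ∧ Even t ∧ (t : ℝ) ≤ Y ∧ (N : ℝ) ^ (4 / 5 : ℝ) ≤
          ({n : ℕ | n < N ∧ Nat.nth Nat.Prime (n + 1) - Nat.nth Nat.Prime n = t}.ncard : ℝ)) :
    ∃ c C : ℝ, 0 < c ∧ 0 < C ∧ ∀ G₀ : ℕ, ∃ B : ℝ, 1 ≤ B ∧ ∀ n : ℕ, B < 2 * (n : ℝ) →
      ∃ G : Finset ℕ, c * n ≤ G.card ∧ ∀ t ∈ G, 0 < t ∧ Even t ∧ t ≤ 2 * n ∧ G₀ ≤ t ∧ Early C t := by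
  obtain ⟨c, hc, h⟩ := dens_of (fun N g =>
    {n : ℕ | n < N ∧ Nat.nth Nat.Prime (n + 1) - Nat.nth Nat.Prime n = g}.ncard) hrec
  obtain ⟨M₀, hM₀2, hM₀⟩ := arith hc
  obtain ⟨N₁, hN₁⟩ := nth_le_sq
  refine ⟨c, 4 * (36 / c ^ 2), hc, by positivity, fun G₀ => ?_⟩
  obtain ⟨N₂, hN₂⟩ := rcd_large (c := c ^ 2 / 2) (by positivity) G₀
  obtain ⟨B, hB1, hB⟩ := h (max M₀ (max N₁ N₂))
  refine ⟨B, hB1, fun n hn => ?_⟩
  obtain ⟨G, hG1, hG2⟩ := hB n hn
  refine ⟨G, hG1, fun t ht => ?_⟩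
  obtain ⟨h1, h2, h3, M, hM, h4, h5, h6⟩ := hG2 t ht
  have hMM₀ : M₀ ≤ M := (le_max_left _ _).trans hM
  have hMN₁ : N₁ ≤ M := (le_max_left _ _).trans ((le_max_right _ _).trans hM)
  have hMN₂ : N₂ ≤ M := (le_max_right _ _).trans ((le_max_right _ _).trans hM)
  have hM2 : (2 : ℝ) ≤ M := by exact_mod_cast hM₀2.trans hMM₀
  have hpos : 0 < {n : ℕ | n < M + 1 ∧
      Nat.nth Nat.Prime (n + 1) - Nat.nth Nat.Prime n = t}.ncard := by
    have h7 : (0 : ℝ) < (M : ℝ) ^ (4 / 5 : ℝ) := Real.rpow_pos_of_pos (by linarith) _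
    have h8 := lt_of_lt_of_le h7 h6
    exact_mod_cast h8
  obtain ⟨hocc, hf0, hf⟩ := fp_le hpos
  have hf2 : fp t ≤ (M + 1) ^ 2 := hf.trans (hN₁ (M + 1) (by omega))
  have hlogf : Real.log (fp t) ≤ 4 * Real.log M := by
    have h9 : ((fp t : ℕ) : ℝ) ≤ (M : ℝ) ^ 4 := by
      have h10 : ((fp t : ℕ) : ℝ) ≤ ((M : ℝ) + 1) ^ 2 := by exact_mod_cast hf2
      have h11 : (M : ℝ) + 1 ≤ (M : ℝ) ^ 2 := by nlinarith
      calc ((fp t : ℕ) : ℝ) ≤ ((M : ℝ) + 1) ^ 2 := h10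
        _ ≤ ((M : ℝ) ^ 2) ^ 2 := pow_le_pow_left₀ (by linarith) h11 2
        _ = (M : ℝ) ^ 4 := by ring
    calc Real.log (fp t) ≤ Real.log ((M : ℝ) ^ 4) :=
          Real.log_le_log (by exact_mod_cast hf0) h9
      _ = 4 * Real.log M := by rw [Real.log_pow]; norm_num
  refine ⟨h1, h2, h3, ?_, hocc, ?_⟩
  · have := (hN₂ M hMN₂).2
    have h12 : (G₀ : ℝ) ≤ t := this.trans h4
    exact_mod_cast h12
  · have h13 := hM₀ M hMM₀ t h4 h5
    calc Real.log (fp t) ≤ 4 * Real.log M := hlogf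
      _ ≤ 4 * (36 / c ^ 2 * shk t) := by linarith
      _ = 4 * (36 / c ^ 2) * shk t := by ring

theorem shanks_main
    (hrec : ∃ c : ℝ, 0 < c ∧ ∃ N₀ : ℕ, ∀ N : ℕ, N₀ ≤ N →
      ∀ Y : ℝ, Real.log N ≤ Y → Y ≤ c * rcd N →
      ∃ F : Finset ℕ, c * Y ≤ F.card ∧
        ∀ t ∈ F, 0 < t ∧ Even t ∧ (t : ℝ) ≤ Y ∧ (N : ℝ) ^ (4 / 5 : ℝ) ≤
          ({n : ℕ | n < N ∧ Nat.nth Nat.Prime (n + 1) - Nat.nth Nat.Prime n = t}.ncard : ℝ)) :
    ∃ c C : ℝ, 0 < c ∧ 0 < C ∧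
      (∃ n₀ : ℕ, ∀ n : ℕ, n₀ ≤ n →
        c * n ≤ (((Icc 1 n).filter (fun g => Even g ∧ Early C g)).card : ℝ)) ∧
      ∀ G₀ : ℕ, ∃ k : ℕ, ∀ t : ℕ, Even t → ∃ s : Multiset ℕ, s.card ≤ k ∧ s.sum = t ∧
        ∀ g ∈ s, g = 2 ∨ (G₀ ≤ g ∧ Even g ∧ Early C g) := by
  obtain ⟨c, C, hc, hC, h⟩ := shanks_dens hrec
  refine ⟨c / 4, C, by positivity, hC, ?_, ?_⟩
  · obtain ⟨B, hB1, hB⟩ := h 0
    refine ⟨⌈B⌉₊ + 4, fun n hn => ?_⟩
    have hBn : B + 4 ≤ n := by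
      have h1 := Nat.le_ceil B
      have h2 : ((⌈B⌉₊ + 4 : ℕ) : ℝ) ≤ n := by exact_mod_cast hn
      push_cast at h2
      linarith
    have hn2 : (n : ℝ) ≤ 2 * ((n / 2 : ℕ) : ℝ) + 1 := by
      have : n ≤ 2 * (n / 2) + 1 := by omega
      exact_mod_cast this
    obtain ⟨G, hG1, hG2⟩ := hB (n / 2) (by linarith)
    have hsub : G ⊆ (Icc 1 n).filter (fun g => Even g ∧ Early C g) := by
      intro t ht
      obtain ⟨h1, h2, h3, -, h5⟩ := hG2 t ht
      rw [mem_filter, mem_Icc]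
      exact ⟨⟨by omega, by omega⟩, h2, h5⟩
    have hcard : (G.card : ℝ) ≤ (((Icc 1 n).filter (fun g => Even g ∧ Early C g)).card : ℝ) := by
      exact_mod_cast card_le_card hsub
    have h6 : c / 4 * n ≤ c * ((n / 2 : ℕ) : ℝ) := by
      have h7 : (n : ℝ) / 4 ≤ ((n / 2 : ℕ) : ℝ) := by linarith
      calc c / 4 * n = c * ((n : ℝ) / 4) := by ring
        _ ≤ c * ((n / 2 : ℕ) : ℝ) := mul_le_mul_of_nonneg_left h7 hc.le
    linarith
  · intro G₀
    obtain ⟨B, hB1, hB⟩ := h G₀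
    obtain ⟨α, hα⟩ : ∃ α : ℝ, α = min c (1 / B) := ⟨_, rfl⟩
    have hα0 : 0 < α := by
      rw [hα]
      exact lt_min hc (by positivity)
    obtain ⟨k, hk⟩ := schnirelmann α hα0
    refine ⟨k, fun t ht => ?_⟩
    obtain ⟨A, hA⟩ : ∃ A : Set ℕ, A = {m | 2 * m = 2 ∨ (G₀ ≤ 2 * m ∧ Even (2 * m) ∧
        Early C (2 * m))} := ⟨_, rfl⟩
    have hdens : ∀ n : ℕ, 1 ≤ n → n ≤ t → α * n ≤ cnt A n := by
      intro n hn1 _
      have hnr : (1 : ℝ) ≤ n := by exact_mod_cast hn1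
      by_cases hsmall : 2 * (n : ℝ) ≤ B
      · have h1 : 1 ≤ cnt A n := by
          unfold cnt
          rw [Nat.one_le_iff_ne_zero, ← Nat.pos_iff_ne_zero, card_pos]
          refine ⟨1, ?_⟩
          rw [mem_filter, mem_Icc, hA]
          exact ⟨⟨le_rfl, hn1⟩, Or.inl rfl⟩
        have h1r : (1 : ℝ) ≤ cnt A n := by exact_mod_cast h1
        have h2 : α * n ≤ 1 / B * n := by
          rw [hα]
          exact mul_le_mul_of_nonneg_right (min_le_right _ _) (by linarith)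
        have h3 : 1 / B * n ≤ 1 := by
          rw [div_mul_eq_mul_div, div_le_one (by linarith)]
          linarith
        linarith
      · push Not at hsmall
        obtain ⟨G, hG1, hG2⟩ := hB n hsmall
        have hsub : (G.image (fun t => t / 2)) ⊆ (Icc 1 n).filter (· ∈ A) := by
          intro m hm
          rw [mem_image] at hm
          obtain ⟨t, ht, rfl⟩ := hm
          obtain ⟨h1, h2, h3, h4, h5⟩ := hG2 t ht
          have h6 : 2 * (t / 2) = t := Nat.two_mul_div_two_of_even h2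
          rw [mem_filter, mem_Icc]
          refine ⟨⟨by omega, by omega⟩, ?_⟩
          rw [hA, Set.mem_ofPred_eq, h6]
          exact Or.inr ⟨h4, h2, h5⟩
        have hinj : (G.image (fun t => t / 2)).card = G.card := by
          apply card_image_of_injOn
          intro x hx y hy hxy
          have h1 := Nat.two_mul_div_two_of_even (hG2 x hx).2.1
          have h2 := Nat.two_mul_div_two_of_even (hG2 y hy).2.1
          simp only at hxy
          omega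
        have hcard : G.card ≤ cnt A n := by
          rw [← hinj]; exact card_le_card hsub
        have hcardr : (G.card : ℝ) ≤ cnt A n := by exact_mod_cast hcard
        have h13 : α * n ≤ c * n := by
          rw [hα]
          exact mul_le_mul_of_nonneg_right (min_le_left _ _) (by linarith)
        linarith
    obtain ⟨s, hs1, hs2, hs3⟩ := hk A t hdens (t / 2) (Nat.div_le_self _ _)
    refine ⟨s.map (fun x => 2 * x), by simpa using hs1, ?_, ?_⟩
    · rw [Multiset.sum_map_mul_left, Multiset.map_id', hs2]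
      exact Nat.two_mul_div_two_of_even ht
    · intro g hg
      rw [Multiset.mem_map] at hg
      obtain ⟨x, hx, rfl⟩ := hg
      have h1 := hs3 x hx
      rw [hA] at h1
      exact h1

end Pool.Agent.Run7.h254.GB
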