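import Pool.Agent.Results.MP_02009f_nt.GapVectorsUpToRecord

/-!
# Chains of large gaps at the record scale
-/

set_option autoImplicit false

namespace Pool.Agent.Run7.h254.GB

open Filter Finset
open Pool.Agent.Results.MP_02009f_nt.GapVectorsUpToRecord
open Pool.Agent.Results.MP_6336a7_nt.GapsInMultiples (occ)

/-- counting the vectors with a small coordinate -/
theorem exists_large {k : ℕ} (hk : 1 ≤ k) {c y : ℝ} (hc : 0 < c) (hy : 2 ≤ y) {η : ℝ} (hη : 0 < η)
    (hηy : 1 ≤ η * y) (hηc : k * (2 * η * 2 ^ k) < c) (A : Finset (Fin k → ℤ))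
    (hA : ∀ v ∈ A, ∀ i, 0 ≤ v i ∧ v i ≤ (⌊y⌋₊ : ℤ)) (hcard : c * y ^ k ≤ A.card) :
    ∃ v ∈ A, ∀ i, η * y ≤ v i := by
  classical
  by_contra hcon
  push Not at hcon
  have hY : ((⌊y⌋₊ : ℕ) : ℝ) ≤ y := Nat.floor_le (by linarith)
  have hη' : ((⌊η * y⌋₊ : ℕ) : ℝ) ≤ η * y := Nat.floor_le (by linarith)
  set S : Fin k → Finset (Fin k → ℤ) := fun i => Fintype.piFinset (fun j =>
    if j = i then Finset.Icc (0 : ℤ) (⌊η * y⌋₊ : ℤ) else Finset.Icc (0 : ℤ) (⌊y⌋₊ : ℤ)) with hS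
  have hsub : A ⊆ (univ : Finset (Fin k)).biUnion S := by
    intro v hv
    obtain ⟨i, hi⟩ := hcon v hv
    rw [mem_biUnion]
    refine ⟨i, mem_univ i, ?_⟩
    rw [hS, Fintype.mem_piFinset]
    intro j
    by_cases hj : j = i
    · subst hj
      rw [if_pos rfl, Finset.mem_Icc]
      refine ⟨(hA v hv j).1, ?_⟩
      have h0 := (hA v hv j).1
      obtain ⟨a, ha⟩ := Int.eq_ofNat_of_zero_le h0
      rw [ha] at hi ⊢
      have : a ≤ ⌊η * y⌋₊ := Nat.le_floor (by simpa using hi.le)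
      exact_mod_cast this
    · rw [if_neg hj, Finset.mem_Icc]
      exact hA v hv j
  have hSc : ∀ i, ((S i).card : ℝ) ≤ (2 * η * 2 ^ k) * y ^ k / 2 := by
    intro i
    have e1 : (S i).card = ∏ j : Fin k, (if j = i then ⌊η * y⌋₊ + 1 else ⌊y⌋₊ + 1) := by
      rw [hS, Fintype.card_piFinset]
      apply Finset.prod_congr rfl
      intro j _
      by_cases hj : j = i
      · rw [if_pos hj, if_pos hj, Int.card_Icc]; omega
      · rw [if_neg hj, if_neg hj, Int.card_Icc]; omega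
    have e2 : ∏ j : Fin k, (if j = i then ⌊η * y⌋₊ + 1 else ⌊y⌋₊ + 1) =
        (⌊η * y⌋₊ + 1) * (⌊y⌋₊ + 1) ^ (k - 1) := by
      rw [← Finset.mul_prod_erase univ _ (mem_univ i), if_pos rfl]
      congr 1
      rw [Finset.prod_congr rfl (g := fun _ => ⌊y⌋₊ + 1)
        (fun j hj => if_neg (Finset.ne_of_mem_erase hj)), Finset.prod_const,
        Finset.card_erase_of_mem (mem_univ i), Finset.card_univ, Fintype.card_fin]
    rw [e1, e2]
    push_cast
    have f1 : (⌊η * y⌋₊ : ℝ) + 1 ≤ 2 * η * y := by linarith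
    have f2 : (⌊y⌋₊ : ℝ) + 1 ≤ 2 * y := by linarith
    have f3 : ((⌊y⌋₊ : ℝ) + 1) ^ (k - 1) ≤ (2 * y) ^ (k - 1) :=
      pow_le_pow_left₀ (by positivity) f2 _
    calc ((⌊η * y⌋₊ : ℝ) + 1) * ((⌊y⌋₊ : ℝ) + 1) ^ (k - 1)
        ≤ (2 * η * y) * (2 * y) ^ (k - 1) := mul_le_mul f1 f3 (by positivity) (by positivity)
      _ = (2 * η * 2 ^ k) * y ^ k / 2 := by
          obtain ⟨m, rfl⟩ : ∃ m, k = m + 1 := ⟨k - 1, by omega⟩
          rw [Nat.add_sub_cancel, mul_pow]
          ring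
  have h1 : (A.card : ℝ) ≤ ∑ i : Fin k, ((S i).card : ℝ) := by
    have := (card_le_card hsub).trans card_biUnion_le
    exact_mod_cast this
  have h2 : ∑ i : Fin k, ((S i).card : ℝ) ≤ k * ((2 * η * 2 ^ k) * y ^ k / 2) := by
    refine (Finset.sum_le_sum (fun i _ => hSc i)).trans ?_
    rw [Finset.sum_const, Finset.card_univ, Fintype.card_fin, nsmul_eq_mul]
  have hyk : 0 < y ^ k := by positivity
  have h3 : c * y ^ k ≤ k * (2 * η * 2 ^ k) / 2 * y ^ k := by
    calc c * y ^ k ≤ A.card := hcard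
      _ ≤ k * ((2 * η * 2 ^ k) * y ^ k / 2) := h1.trans h2
      _ = k * (2 * η * 2 ^ k) / 2 * y ^ k := by ring
  have h4 := le_of_mul_le_mul_right h3 hyk
  have h5 : 0 ≤ (k : ℝ) * (2 * η * 2 ^ k) := by positivity
  linarith

/-- **Chains of large gaps.** -/
theorem chain (k : ℕ) (hk : 1 ≤ k) : ∃ c₁ : ℝ, 0 < c₁ ∧ ∀ᶠ X : ℝ in atTop,
    ∃ s, 1 ≤ s ∧ (Nat.nth Nat.Prime (s + k) : ℝ) ≤ 4 * X ∧ ∀ i : Fin k, c₁ * rcd X ≤ (gv k s i : ℝ) := by
  classical
  obtain ⟨c₀, c, C, hc₀, hc, hC, D, hev⟩ :=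
    Pool.Agent.Results.MP_6336a7_nt.GapsInMultiples.result (k + 1) (by omega)
  have hk0 : (0 : ℝ) < k := by exact_mod_cast hk
  obtain ⟨η, hηd⟩ : ∃ η : ℝ, η = c / (4 * k * 2 ^ k) := ⟨_, rfl⟩
  have hη : 0 < η := by rw [hηd]; positivity
  have hηc : k * (2 * η * 2 ^ k) < c := by
    have : (k : ℝ) * (2 * η * 2 ^ k) = c / 2 := by
      rw [hηd]; field_simp; ring
    rw [this]; linarith
  refine ⟨η * c₀, by positivity, ?_⟩
  filter_upwards [hev, rcd_tendsto (C / c₀ + (2 + 1 / η) / c₀), eventually_ge_atTop (2 : ℝ)] with X hX1 hX23 hX4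
  obtain ⟨hX2, hX3⟩ := hX23
  set y : ℝ := c₀ * rcd X with hy
  have hy2' : 2 + 1 / η ≤ y := by
    have h1 : (0 : ℝ) < C / c₀ := by positivity
    have h2 : (2 + 1 / η) / c₀ ≤ rcd X := by linarith
    calc (2 + 1 / η : ℝ) = c₀ * ((2 + 1 / η) / c₀) := by field_simp
      _ ≤ c₀ * rcd X := mul_le_mul_of_nonneg_left h2 hc₀.le
  have hη1 : 0 < 1 / η := by positivity
  have hy2 : 2 ≤ y := by linarith
  have hηy : 1 ≤ η * y := by
    calc (1 : ℝ) = η * (1 / η) := by field_simp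
      _ ≤ η * y := mul_le_mul_of_nonneg_left (by linarith) hη.le
  have hcond : C * (1 : ℕ) * Real.log (Real.log X) ≤ y := by
    rcases le_total 0 (Real.log (Real.log X)) with h | h
    · have h3 : C / c₀ * Real.log (Real.log X) ≤ rcd X := by
        refine le_trans ?_ hX3
        apply mul_le_mul_of_nonneg_right _ h
        have : (0 : ℝ) < (2 + 1 / η) / c₀ := by positivity
        linarith
      calc C * (1 : ℕ) * Real.log (Real.log X) =
            c₀ * (C / c₀ * Real.log (Real.log X)) := by field_simp; simp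
        _ ≤ c₀ * rcd X := mul_le_mul_of_nonneg_left h3 hc₀.le
    · have h3 : C * (1 : ℕ) * Real.log (Real.log X) ≤ 0 :=
        mul_nonpos_of_nonneg_of_nonpos (by positivity) h
      linarith
  have h3 := hX1 1 le_rfl y hcond le_rfl
  simp only [Nat.totient_one, Nat.cast_one, div_one, one_pow, mul_one, Nat.add_sub_cancel] at h3
  set F := ((Finset.powersetCard (k + 1) (Finset.range (⌊y⌋₊ + 1))).filter
          (fun H => 0 ∈ H ∧ X ^ (7 / 8 : ℝ) ≤ occ (k + 1) X (H.image (fun h => 1 * h)))) with hF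
  have hFX : ∀ H ∈ F, ∃ i, 1 ≤ i ∧
      (range (k + 1)).image (fun j => Nat.nth Nat.Prime (i + j) - Nat.nth Nat.Prime i) = H ∧
      (Nat.nth Nat.Prime (i + k) : ℝ) ≤ 4 * X := by
    intro H hH
    rw [hF, mem_filter] at hH
    obtain ⟨i, h1, h2, h4, h5⟩ := of_occ hX4 hH.2.2
    refine ⟨i, h1, ?_, h4⟩
    rw [h2]; simp
  choose! I hI1 hI2 hI3 using hFX
  have hinj : Set.InjOn (fun H => gv k (I H)) (F : Set (Finset ℕ)) := by
    intro H hH H' hH' h
    rw [← hI2 H hH, ← hI2 H' hH']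
    have hstep : ∀ j, j ≤ k → Nat.nth Nat.Prime (I H + j) - Nat.nth Nat.Prime (I H) =
        Nat.nth Nat.Prime (I H' + j) - Nat.nth Nat.Prime (I H') := by
      intro j
      have hm := Nat.nth_strictMono Nat.infinite_setOfPred_prime
      induction j with
      | zero => intro _; simp
      | succ j ih =>
        intro hj
        have h5 := ih (by omega)
        have h6 := congrFun h ⟨j, by omega⟩
        simp only [gv] at h6
        have b1 : Nat.nth Nat.Prime (I H) ≤ Nat.nth Nat.Prime (I H + j) := hm.monotone (by omega)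
        have b2 : Nat.nth Nat.Prime (I H') ≤ Nat.nth Nat.Prime (I H' + j) := hm.monotone (by omega)
        have b3 : Nat.nth Nat.Prime (I H + j) ≤ Nat.nth Nat.Prime (I H + j + 1) := hm.monotone (by omega)
        have b4 : Nat.nth Nat.Prime (I H' + j) ≤ Nat.nth Nat.Prime (I H' + j + 1) := hm.monotone (by omega)
        rw [← add_assoc, ← add_assoc]
        omega
    apply Finset.image_congr
    intro j hj
    rw [mem_coe, mem_range] at hj
    exact hstep j (by omega)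
  have hcardA : (F.image (fun H => gv k (I H))).card = F.card := card_image_of_injOn hinj
  obtain ⟨v, hv, hv2⟩ := exists_large hk hc hy2 hη hηy hηc (F.image (fun H => gv k (I H))) (by
    intro v hv i
    obtain ⟨H, hH, rfl⟩ := mem_image.1 hv
    have hm := Nat.nth_strictMono Nat.infinite_setOfPred_prime
    have hH' := hH
    rw [hF, mem_filter, mem_powersetCard] at hH'
    have hmem : Nat.nth Nat.Prime (I H + k) - Nat.nth Nat.Prime (I H) ∈ H := by
      rw [← hI2 H hH]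
      exact mem_image.2 ⟨k, mem_range.2 (by omega), by rw [hI2 H hH]⟩
    have h7 := mem_range.1 (hH'.1.1 hmem)
    have b1 : Nat.nth Nat.Prime (I H) ≤ Nat.nth Nat.Prime (I H + i) := hm.monotone (by omega)
    have b2 : Nat.nth Nat.Prime (I H + i) ≤ Nat.nth Nat.Prime (I H + i + 1) := hm.monotone (by omega)
    have b3 : Nat.nth Nat.Prime (I H + i + 1) ≤ Nat.nth Nat.Prime (I H + k) :=
      hm.monotone (by have := i.isLt; omega)
    simp only [gv]
    constructor
    · omega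
    · omega) (by rw [hcardA]; exact h3)
  obtain ⟨H, hH, rfl⟩ := mem_image.1 hv
  refine ⟨I H, hI1 H hH, hI3 H hH, fun i => ?_⟩
  have := hv2 i
  calc η * c₀ * rcd X = η * y := by rw [hy]; ring
    _ ≤ _ := this

theorem rcd_quarter : ∀ᶠ x : ℝ in atTop, rcd x ≤ 16 * rcd (x / 4) := by
  have t1 := Real.tendsto_log_atTop
  have t2 := t1.comp t1
  have t3 := t1.comp t2
  have t4 := t1.comp t3
  filter_upwards [t1.eventually_ge_atTop 4, t2.eventually_ge_atTop 2, t3.eventually_ge_atTop 2,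
    t4.eventually_ge_atTop 2, eventually_ge_atTop (4 : ℝ)] with x h1 h2 h3 h4 h5
  simp only [Function.comp_apply] at h2 h3 h4
  set L := Real.log x with hL
  set L2 := Real.log L with hL2
  set L3 := Real.log L2 with hL3
  set L4 := Real.log L3 with hL4
  have l2 : Real.log 2 ≤ 1 := by
    have := Real.log_le_sub_one_of_pos (show (0 : ℝ) < 2 by norm_num)
    linarith
  have l4 : Real.log 4 ≤ 2 := by
    have h : Real.log 4 = 2 * Real.log 2 := by
      rw [show (4 : ℝ) = 2 ^ 2 by norm_num, Real.log_pow]; norm_num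
    linarith
  have e1 : Real.log (x / 4) = L - Real.log 4 := by rw [Real.log_div (by linarith) (by norm_num)]
  have l40 : 0 ≤ Real.log 4 := Real.log_nonneg (by norm_num)
  have u1 : L / 2 ≤ Real.log (x / 4) := by linarith
  have u1' : Real.log (x / 4) ≤ L := by linarith
  have half : ∀ a : ℝ, 0 < a → 2 ≤ Real.log a → Real.log a / 2 ≤ Real.log (a / 2) := by
    intro a ha hla
    rw [Real.log_div ha.ne' (by norm_num)]
    linarith
  have u2 : L2 / 2 ≤ Real.log (Real.log (x / 4)) :=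
    (half L (by linarith) h2).trans (Real.log_le_log (by linarith) u1)
  have u2' : Real.log (Real.log (x / 4)) ≤ L2 := Real.log_le_log (by linarith) u1'
  have u3 : L3 / 2 ≤ Real.log (Real.log (Real.log (x / 4))) :=
    (half L2 (by linarith) h3).trans (Real.log_le_log (by linarith) u2)
  have u3' : Real.log (Real.log (Real.log (x / 4))) ≤ L3 := Real.log_le_log (by linarith) u2'
  have u4 : L4 / 2 ≤ Real.log (Real.log (Real.log (Real.log (x / 4)))) :=
    (half L3 (by linarith) h4).trans (Real.log_le_log (by linarith) u3)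
  unfold rcd
  rw [← hL, ← hL2, ← hL3, ← hL4]
  have hL3p : 0 < L3 := by linarith
  have hu3p : 0 < Real.log (Real.log (Real.log (x / 4))) := by linarith
  rw [div_le_iff₀ (by positivity), ← mul_div_assoc, div_mul_eq_mul_div, le_div_iff₀ (by positivity)]
  have a1 : (L2 / 2) ^ 2 ≤ (Real.log (Real.log (x / 4))) ^ 2 :=
    pow_le_pow_left₀ (by linarith) u2 2
  have a2 : L / 2 * (L2 / 2) ^ 2 ≤ Real.log (x / 4) * (Real.log (Real.log (x / 4))) ^ 2 :=
    mul_le_mul u1 a1 (by positivity) (by linarith)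
  have a3 : L / 2 * (L2 / 2) ^ 2 * (L4 / 2) ≤ Real.log (x / 4) * (Real.log (Real.log (x / 4))) ^ 2 *
      Real.log (Real.log (Real.log (Real.log (x / 4)))) := by
    apply mul_le_mul a2 u4 (by linarith)
    have : 0 < Real.log (x / 4) := by linarith
    positivity
  have a4 : (Real.log (Real.log (Real.log (x / 4)))) ^ 2 ≤ L3 ^ 2 := pow_le_pow_left₀ hu3p.le u3' 2
  have a5 : 0 ≤ L * L2 ^ 2 * L4 := by
    have : 0 < L := by linarith
    have : 0 < L4 := by linarith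
    positivity
  calc L * L2 ^ 2 * L4 * (Real.log (Real.log (Real.log (x / 4)))) ^ 2
      ≤ L * L2 ^ 2 * L4 * L3 ^ 2 := mul_le_mul_of_nonneg_left a4 a5
    _ = 16 * (L / 2 * (L2 / 2) ^ 2 * (L4 / 2)) * L3 ^ 2 := by ring
    _ ≤ 16 * (Real.log (x / 4) * (Real.log (Real.log (x / 4))) ^ 2 *
        Real.log (Real.log (Real.log (Real.log (x / 4))))) * L3 ^ 2 := by
          apply mul_le_mul_of_nonneg_right _ (by positivity)
          exact mul_le_mul_of_nonneg_left a3 (by norm_num)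

/-- chains of large gaps among the first `N` gaps -/
theorem chain_nat (k : ℕ) (hk : 1 ≤ k) : ∃ c : ℝ, 0 < c ∧ ∃ N₀ : ℕ, ∀ N : ℕ, N₀ ≤ N →
    ∃ n, n + k ≤ N ∧ ∀ i < k, c * rcd N ≤
      ((Nat.nth Nat.Prime (n + i + 1) - Nat.nth Nat.Prime (n + i) : ℕ) : ℝ) := by
  obtain ⟨c, hc, h⟩ := chain k hk
  have hq : ∀ᶠ x : ℝ in atTop, rcd x ≤ 16 * rcd (x / 4) := rcd_quarter
  have t0 : Tendsto (fun N : ℕ => (N : ℝ)) atTop atTop := tendsto_natCast_atTop_atTop
  have t1 : Tendsto (fun N : ℕ => (N : ℝ) / 4) atTop atTop := t0.atTop_div_const (by norm_num)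
  obtain ⟨N₀, hN₀⟩ := Filter.eventually_atTop.1 ((t1.eventually h).and (t0.eventually hq))
  refine ⟨c / 16, by positivity, N₀, fun N hN => ?_⟩
  obtain ⟨⟨s, hs1, hs2, hs3⟩, h2⟩ := hN₀ N hN
  have h3 : (Nat.nth Nat.Prime (s + k) : ℝ) ≤ N := by linarith
  have h4 : Nat.nth Nat.Prime (s + k) ≤ N := by exact_mod_cast h3
  have h5 := Nat.add_two_le_nth_prime (s + k)
  refine ⟨s, by omega, fun i hi => ?_⟩
  have h6 := hs3 ⟨i, hi⟩
  have h7 : (gv k s ⟨i, hi⟩ : ℝ) =
      ((Nat.nth Nat.Prime (s + i + 1) - Nat.nth Nat.Prime (s + i) : ℕ) : ℝ) := by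
    have h8 : Nat.nth Nat.Prime (s + i) ≤ Nat.nth Nat.Prime (s + i + 1) :=
      (Nat.nth_strictMono Nat.infinite_setOfPred_prime).monotone (by omega)
    rw [Nat.cast_sub h8]
    simp [gv]
  rw [← h7]
  refine le_trans ?_ h6
  calc c / 16 * rcd N = c * (rcd N / 16) := by ring
    _ ≤ c * rcd (N / 4) := mul_le_mul_of_nonneg_left (by linarith) hc.le

/-- the largest of the first `N` gaps -/
noncomputable def mg (N : ℕ) : ℕ :=
  (Finset.range N).sup (fun n => Nat.nth Nat.Prime (n + 1) - Nat.nth Nat.Prime n)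

/-- the largest product of two successive ones of the first `N` gaps -/
noncomputable def mp (N : ℕ) : ℕ :=
  (Finset.Ico 1 N).sup (fun n => (Nat.nth Nat.Prime (n + 1) - Nat.nth Nat.Prime n) *
    (Nat.nth Nat.Prime n - Nat.nth Nat.Prime (n - 1)))

theorem mg_pos {N : ℕ} (hN : 1 ≤ N) : 0 < mg N := by
  have h1 : Nat.nth Nat.Prime (0 + 1) - Nat.nth Nat.Prime 0 ≤ mg N :=
    Finset.le_sup (f := fun n => Nat.nth Nat.Prime (n + 1) - Nat.nth Nat.Prime n)
      (Finset.mem_range.2 (by omega))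
  have h2 : Nat.nth Nat.Prime 0 < Nat.nth Nat.Prime (0 + 1) :=
    Nat.nth_strictMono Nat.infinite_setOfPred_prime (by norm_num)
  omega

theorem mp_lower : ∃ c : ℝ, 0 < c ∧ ∃ N₀ : ℕ, ∀ N : ℕ, N₀ ≤ N →
    0 < rcd N ∧ c * rcd N ^ 2 ≤ mp N ∧ c * (rcd N / mg N) ^ 2 ≤ mp N / (mg N : ℝ) ^ 2 := by
  obtain ⟨c, hc, N₀, hN₀⟩ := chain_nat 2 (by norm_num)
  have t0 : Tendsto (fun N : ℕ => (N : ℝ)) atTop atTop := tendsto_natCast_atTop_atTop
  obtain ⟨N₁, hN₁⟩ := Filter.eventually_atTop.1 (t0.eventually (rcd_tendsto 1))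
  refine ⟨c ^ 2, by positivity, max 2 (max N₀ N₁), fun N hN => ?_⟩
  have hN2 : 2 ≤ N := (le_max_left _ _).trans hN
  have hr : 0 < rcd N := by
    have := (hN₁ N ((le_max_right _ _).trans ((le_max_right _ _).trans hN))).1
    linarith
  obtain ⟨n, hn, h⟩ := hN₀ N ((le_max_left _ _).trans ((le_max_right _ _).trans hN))
  have h0 := h 0 (by norm_num)
  have h1 := h 1 (by norm_num)
  simp only [Nat.add_zero] at h0
  have hmem : (Nat.nth Nat.Prime (n + 1 + 1) - Nat.nth Nat.Prime (n + 1)) *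
      (Nat.nth Nat.Prime (n + 1) - Nat.nth Nat.Prime (n + 1 - 1)) ≤ mp N :=
    Finset.le_sup (f := fun n => (Nat.nth Nat.Prime (n + 1) - Nat.nth Nat.Prime n) *
      (Nat.nth Nat.Prime n - Nat.nth Nat.Prime (n - 1))) (Finset.mem_Ico.2 ⟨by omega, by omega⟩)
  rw [Nat.add_sub_cancel] at hmem
  have hmem' : ((Nat.nth Nat.Prime (n + 1 + 1) - Nat.nth Nat.Prime (n + 1) : ℕ) : ℝ) *
      ((Nat.nth Nat.Prime (n + 1) - Nat.nth Nat.Prime n : ℕ) : ℝ) ≤ mp N := by exact_mod_cast hmem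
  have hkey : c ^ 2 * rcd N ^ 2 ≤ mp N := by
    calc c ^ 2 * rcd N ^ 2 = (c * rcd N) * (c * rcd N) := by ring
      _ ≤ ((Nat.nth Nat.Prime (n + 1 + 1) - Nat.nth Nat.Prime (n + 1) : ℕ) : ℝ) *
          ((Nat.nth Nat.Prime (n + 1) - Nat.nth Nat.Prime n : ℕ) : ℝ) :=
        mul_le_mul h1 h0 (by positivity) (Nat.cast_nonneg _)
      _ ≤ mp N := hmem'
  have hM : (0 : ℝ) < mg N := by exact_mod_cast mg_pos (by omega)
  refine ⟨hr, hkey, ?_⟩
  rw [div_pow, ← mul_div_assoc]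
  exact div_le_div_of_nonneg_right hkey (by positivity)

theorem mg_tendsto (h : Tendsto (fun N : ℕ => (mp N : ℝ) / (mg N : ℝ) ^ 2) atTop (nhds 0)) :
    Tendsto (fun N : ℕ => (mg N : ℝ) / rcd N) atTop atTop := by
  obtain ⟨c, hc, N₀, hN₀⟩ := mp_lower
  rw [tendsto_atTop]
  intro K
  obtain ⟨K', hK'⟩ : ∃ K' : ℝ, K' = max K 1 := ⟨_, rfl⟩
  have hK1 : 1 ≤ K' := by rw [hK']; exact le_max_right _ _
  have hKK : K ≤ K' := by rw [hK']; exact le_max_left _ _
  have h1 := h.eventually (gt_mem_nhds (show (0 : ℝ) < c / K' ^ 2 by positivity))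
  filter_upwards [h1, eventually_ge_atTop (max N₀ 1)] with N h2 h3
  obtain ⟨hr, -, h4⟩ := hN₀ N ((le_max_left _ _).trans h3)
  have hM : (0 : ℝ) < mg N := by exact_mod_cast mg_pos ((le_max_right _ _).trans h3)
  refine hKK.trans ?_
  rw [le_div_iff₀ hr]
  have h5 : c * (rcd N / mg N) ^ 2 ≤ c / K' ^ 2 := h4.trans h2.le
  have h6 : (rcd N / mg N) ^ 2 ≤ (1 / K') ^ 2 := by
    have : c * (rcd N / mg N) ^ 2 ≤ c * (1 / K') ^ 2 := by
      refine h5.trans (le_of_eq ?_)
      rw [div_pow, one_pow]; ring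
    exact le_of_mul_le_mul_left this hc
  have h7 : rcd N / mg N ≤ 1 / K' := by
    have h8 : (0 : ℝ) ≤ 1 / K' := by positivity
    exact abs_le_of_sq_le_sq' h6 h8 |>.2
  rw [div_le_div_iff₀ hM (by linarith)] at h7
  linarith

end Pool.Agent.Run7.h254.GB
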