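import Pool.Agent.Run7.h254.GB.Chain
import Pool.Agent.Run7.h254.GB.Early
import Pool.Agent.Run7.h254.GB.Schnir

/-!
# Differences of two gaps at distance two, with even index
-/

set_option autoImplicit false

namespace Pool.Agent.Run7.h254.GB

open Filter Finset
open Pool.Agent.Results.MP_02009f_nt.GapVectorsUpToRecord
open Pool.Agent.Results.MP_6336a7_nt.GapsInMultiples (occ)

/-- the gap after the prime number `i` (counted from `0`) -/
noncomputable def gp (i : ℕ) : ℤ := (Nat.nth Nat.Prime (i + 1) : ℤ) - Nat.nth Nat.Prime i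

/-- `d` is the absolute value of the difference of the gaps number `2m+2` and `2m` -/
def Val (d : ℕ) (B : ℝ) : Prop :=
  ∃ m, 1 ≤ m ∧ (Nat.nth Nat.Prime (2 * m + 3) : ℝ) ≤ B ∧ (gp (2 * m + 2) - gp (2 * m)).natAbs = d

theorem nth_odd2 {j : ℕ} (hj : 1 ≤ j) : Nat.nth Nat.Prime j % 2 = 1 := by
  have h1 := Nat.add_two_le_nth_prime j
  have h2 := Nat.prime_nth_prime j
  rcases h2.eq_two_or_odd with h | h
  · omega
  · exact h

theorem gp_even {i : ℕ} (hi : 1 ≤ i) : ∃ b : ℤ, gp i = 2 * b := by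
  have h1 := nth_odd2 hi
  have h2 := nth_odd2 (show 1 ≤ i + 1 by omega)
  unfold gp
  exact ⟨((Nat.nth Nat.Prime (i + 1) : ℤ) - Nat.nth Nat.Prime i) / 2, by omega⟩

theorem gp_nonneg (i : ℕ) : 0 ≤ gp i := by
  have h : Nat.nth Nat.Prime i ≤ Nat.nth Nat.Prime (i + 1) :=
    (Nat.nth_strictMono Nat.infinite_setOfPred_prime).monotone (by omega)
  unfold gp
  omega

theorem second_dens : ∃ c₀ c C : ℝ, 0 < c₀ ∧ 0 < c ∧ 0 < C ∧ ∀ᶠ X : ℝ in atTop,
    ∀ y : ℝ, 2 ≤ y → C * Real.log (Real.log X) ≤ y → y ≤ c₀ * rcd X →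
      ∃ E : Finset ℕ, c * y ≤ E.card ∧ ∀ d ∈ E, (d : ℝ) ≤ y ∧ Even d ∧ Val d (4 * X) := by
  classical
  obtain ⟨c₀, c, C, hc₀, hc, hC, D, hev⟩ :=
    Pool.Agent.Results.MP_6336a7_nt.GapsInMultiples.result (4 + 1) (by omega)
  refine ⟨c₀, c / 32, C, hc₀, by positivity, hC, ?_⟩
  filter_upwards [hev, eventually_ge_atTop (2 : ℝ)] with X hX1 hX4 y hy2 hcond hycond
  have h3 := hX1 1 le_rfl y (by simpa using hcond) hycond
  simp only [Nat.totient_one, Nat.cast_one, div_one, one_pow, mul_one, Nat.add_sub_cancel] at h3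
  set F := ((Finset.powersetCard (4 + 1) (Finset.range (⌊y⌋₊ + 1))).filter
          (fun H => 0 ∈ H ∧ X ^ (7 / 8 : ℝ) ≤ occ (4 + 1) X (H.image (fun h => 1 * h)))) with hF
  have hFX : ∀ H ∈ F, ∃ i, 1 ≤ i ∧
      (range (4 + 1)).image (fun j => Nat.nth Nat.Prime (i + j) - Nat.nth Nat.Prime i) = H ∧
      (Nat.nth Nat.Prime (i + 4) : ℝ) ≤ 4 * X := by
    intro H hH
    rw [hF, mem_filter] at hH
    obtain ⟨i, h1, h2, h4, h5⟩ := of_occ hX4 hH.2.2
    refine ⟨i, h1, ?_, h4⟩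
    rw [h2]; simp
  choose! I hI1 hI2 hI3 using hFX
  have hm := Nat.nth_strictMono Nat.infinite_setOfPred_prime
  set E := (range (⌊y⌋₊ + 1)).filter (fun d => Even d ∧ Val d (4 * X)) with hE
  refine ⟨E, ?_, fun d hd => ?_⟩
  swap
  · rw [hE, mem_filter, mem_range] at hd
    exact ⟨(Nat.le_floor_iff (by linarith)).1 (by omega), hd.2⟩
  set ES : Finset ℤ := E.image (fun d : ℕ => (d : ℤ)) ∪ E.image (fun d : ℕ => -(d : ℤ)) with hES
  have hESmem : ∀ e : ℤ, e.natAbs ≤ ⌊y⌋₊ → Even e.natAbs → Val e.natAbs (4 * X) → e ∈ ES := by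
    intro e h1 h2 h4
    have h5 : e.natAbs ∈ E := by
      rw [hE, mem_filter, mem_range]
      exact ⟨by omega, h2, h4⟩
    rw [hES, mem_union, mem_image, mem_image]
    rcases le_total 0 e with h | h
    · exact Or.inl ⟨e.natAbs, h5, by omega⟩
    · exact Or.inr ⟨e.natAbs, h5, by omega⟩
  obtain ⟨J, hJ⟩ : ∃ J : Finset ℤ, J = Finset.Icc (0 : ℤ) (⌊y⌋₊ : ℤ) := ⟨_, rfl⟩
  set T : Finset (ℕ × ℤ × ℤ × ℤ × ℤ) := (range 2) ×ˢ ES ×ˢ J ×ˢ J ×ˢ J with hT
  obtain ⟨f, hf⟩ : ∃ f : Finset ℕ → ℕ × ℤ × ℤ × ℤ × ℤ, f = fun H =>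
    if I H % 2 = 0 then (0, gp (I H + 2) - gp (I H), gp (I H), gp (I H + 1), gp (I H + 3))
    else (1, gp (I H + 3) - gp (I H + 1), gp (I H), gp (I H + 1), gp (I H + 2)) := ⟨_, rfl⟩
  have hbound : ∀ H ∈ F, gp (I H) ∈ J ∧ gp (I H + 1) ∈ J ∧ gp (I H + 2) ∈ J ∧ gp (I H + 3) ∈ J := by
    intro H hH
    have hH' := hH
    rw [hF, mem_filter, mem_powersetCard] at hH'
    have hmem : Nat.nth Nat.Prime (I H + 4) - Nat.nth Nat.Prime (I H) ∈ H := by
      rw [← hI2 H hH]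
      exact mem_image.2 ⟨4, mem_range.2 (by omega), by rw [hI2 H hH]⟩
    have h7 := mem_range.1 (hH'.1.1 hmem)
    have b0 : Nat.nth Nat.Prime (I H) ≤ Nat.nth Nat.Prime (I H + 1) := hm.monotone (by omega)
    have b1 : Nat.nth Nat.Prime (I H + 1) ≤ Nat.nth Nat.Prime (I H + 2) := hm.monotone (by omega)
    have b2 : Nat.nth Nat.Prime (I H + 2) ≤ Nat.nth Nat.Prime (I H + 3) := hm.monotone (by omega)
    have b3 : Nat.nth Nat.Prime (I H + 3) ≤ Nat.nth Nat.Prime (I H + 4) := hm.monotone (by omega)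
    have g0 : gp (I H) = (Nat.nth Nat.Prime (I H + 1) : ℤ) - Nat.nth Nat.Prime (I H) := rfl
    have g1 : gp (I H + 1) = (Nat.nth Nat.Prime (I H + 2) : ℤ) - Nat.nth Nat.Prime (I H + 1) := rfl
    have g2 : gp (I H + 2) = (Nat.nth Nat.Prime (I H + 3) : ℤ) - Nat.nth Nat.Prime (I H + 2) := rfl
    have g3 : gp (I H + 3) = (Nat.nth Nat.Prime (I H + 4) : ℤ) - Nat.nth Nat.Prime (I H + 3) := rfl
    rw [hJ, Finset.mem_Icc, Finset.mem_Icc, Finset.mem_Icc, Finset.mem_Icc, g0, g1, g2, g3]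
    refine ⟨⟨by omega, by omega⟩, ⟨by omega, by omega⟩, ⟨by omega, by omega⟩, ⟨by omega, by omega⟩⟩
  have hmaps : ∀ H ∈ F, f H ∈ T := by
    intro H hH
    obtain ⟨m0, m1, m2, m3⟩ := hbound H hH
    have n0 := m0
    have n1 := m1
    have n2 := m2
    have n3 := m3
    rw [hJ, Finset.mem_Icc] at n0 n1 n2 n3
    have hi1 := hI1 H hH
    rw [hf]
    by_cases hpar : I H % 2 = 0
    · simp only [hpar, if_true]
      rw [hT, mem_product, mem_product, mem_product, mem_product]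
      refine ⟨mem_range.2 (by norm_num), hESmem (gp (I H + 2) - gp (I H)) (by omega) ?_ ?_, m0, m1, m3⟩
      · obtain ⟨u, hu⟩ := gp_even (show 1 ≤ I H by omega)
        obtain ⟨v, hv⟩ := gp_even (show 1 ≤ I H + 2 by omega)
        rw [hu, hv]
        exact ⟨(v - u).natAbs, by omega⟩
      · obtain ⟨m, hmm⟩ : ∃ m, I H = 2 * m := ⟨I H / 2, by omega⟩
        refine ⟨m, by omega, ?_, by rw [hmm]⟩
        have h4 := hI3 H hH
        rw [hmm] at h4
        have h5 : Nat.nth Nat.Prime (2 * m + 3) ≤ Nat.nth Nat.Prime (2 * m + 4) := hm.monotone (by omega)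
        have h6 : (Nat.nth Nat.Prime (2 * m + 3) : ℝ) ≤ Nat.nth Nat.Prime (2 * m + 4) := by
          exact_mod_cast h5
        linarith
    · simp only [hpar, if_false]
      rw [hT, mem_product, mem_product, mem_product, mem_product]
      refine ⟨mem_range.2 (by norm_num), hESmem (gp (I H + 3) - gp (I H + 1)) (by omega) ?_ ?_, m0, m1, m2⟩
      · obtain ⟨u, hu⟩ := gp_even (show 1 ≤ I H + 1 by omega)
        obtain ⟨v, hv⟩ := gp_even (show 1 ≤ I H + 3 by omega)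
        rw [hu, hv]
        exact ⟨(v - u).natAbs, by omega⟩
      · obtain ⟨m, hmm⟩ : ∃ m, I H = 2 * m + 1 := ⟨I H / 2, by omega⟩
        refine ⟨m + 1, by omega, ?_, ?_⟩
        · have h4 := hI3 H hH
          rw [hmm] at h4
          have h5 : 2 * m + 1 + 4 = 2 * (m + 1) + 3 := by ring
          rwa [h5] at h4
        · have e1 : I H + 3 = 2 * (m + 1) + 2 := by omega
          have e2 : I H + 1 = 2 * (m + 1) := by omega
          rw [e1, e2]
  have hinj : Set.InjOn f (F : Set (Finset ℕ)) := by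
    intro H hH H' hH' h
    have hgp : gp (I H) = gp (I H') ∧ gp (I H + 1) = gp (I H' + 1) ∧ gp (I H + 2) = gp (I H' + 2) ∧
        gp (I H + 3) = gp (I H' + 3) := by
      rw [hf] at h
      by_cases h1 : I H % 2 = 0
      · by_cases h2 : I H' % 2 = 0
        · simp only [h1, h2, if_true, Prod.mk.injEq] at h
          obtain ⟨-, a1, a2, a3, a4⟩ := h
          exact ⟨a2, a3, by omega, a4⟩
        · simp only [h1, h2, if_true, if_false, Prod.mk.injEq] at h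
          omega
      · by_cases h2 : I H' % 2 = 0
        · simp only [h1, h2, if_true, if_false, Prod.mk.injEq] at h
          omega
        · simp only [h1, h2, if_false, Prod.mk.injEq] at h
          obtain ⟨-, a1, a2, a3, a4⟩ := h
          exact ⟨a2, a3, a4, by omega⟩
    obtain ⟨a0, a1, a2, a3⟩ := hgp
    have key : ∀ K : Finset ℕ, gp (I K) = (Nat.nth Nat.Prime (I K + 1) : ℤ) - Nat.nth Nat.Prime (I K) ∧
        gp (I K + 1) = (Nat.nth Nat.Prime (I K + 2) : ℤ) - Nat.nth Nat.Prime (I K + 1) ∧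
        gp (I K + 2) = (Nat.nth Nat.Prime (I K + 3) : ℤ) - Nat.nth Nat.Prime (I K + 2) ∧
        gp (I K + 3) = (Nat.nth Nat.Prime (I K + 4) : ℤ) - Nat.nth Nat.Prime (I K + 3) ∧
        Nat.nth Nat.Prime (I K) ≤ Nat.nth Nat.Prime (I K + 1) ∧
        Nat.nth Nat.Prime (I K + 1) ≤ Nat.nth Nat.Prime (I K + 2) ∧
        Nat.nth Nat.Prime (I K + 2) ≤ Nat.nth Nat.Prime (I K + 3) ∧
        Nat.nth Nat.Prime (I K + 3) ≤ Nat.nth Nat.Prime (I K + 4) := fun K =>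
      ⟨rfl, rfl, rfl, rfl, hm.monotone (by omega), hm.monotone (by omega), hm.monotone (by omega),
        hm.monotone (by omega)⟩
    obtain ⟨b0, b1, b2, b3, b4, b5, b6, b7⟩ := key H
    obtain ⟨d0, d1, d2, d3, d4, d5, d6, d7⟩ := key H'
    rw [← hI2 H hH, ← hI2 H' hH']
    apply Finset.image_congr
    intro j hj
    rw [mem_coe, mem_range] at hj
    simp only
    interval_cases j
    · simp
    · omega
    · omega
    · omega
    · omega
  have hcard1 : F.card ≤ T.card := card_le_card_of_injOn f hmaps hinj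
  have hESc : ES.card ≤ 2 * E.card := by
    have h1 := card_union_le (E.image (fun d : ℕ => (d : ℤ))) (E.image (fun d : ℕ => -(d : ℤ)))
    have h2 : (E.image (fun d : ℕ => (d : ℤ))).card ≤ E.card := card_image_le
    have h4 : (E.image (fun d : ℕ => -(d : ℤ))).card ≤ E.card := card_image_le
    rw [hES]
    omega
  have hJc : J.card = ⌊y⌋₊ + 1 := by
    rw [hJ, Int.card_Icc]; omega
  have hTc : T.card = 2 * (ES.card * ((⌊y⌋₊ + 1) * ((⌊y⌋₊ + 1) * (⌊y⌋₊ + 1)))) := by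
    rw [hT, card_product, card_product, card_product, card_product, hJc, card_range]
  have hY : ((⌊y⌋₊ : ℕ) : ℝ) ≤ y := Nat.floor_le (by linarith)
  have hY2 : ((⌊y⌋₊ : ℕ) : ℝ) + 1 ≤ 2 * y := by linarith
  have hY0 : (0 : ℝ) ≤ ((⌊y⌋₊ : ℕ) : ℝ) + 1 := by positivity
  have hcube : (((⌊y⌋₊ : ℕ) : ℝ) + 1) * ((((⌊y⌋₊ : ℕ) : ℝ) + 1) * (((⌊y⌋₊ : ℕ) : ℝ) + 1)) ≤ 8 * y ^ 3 := by
    have := pow_le_pow_left₀ hY0 hY2 3
    calc (((⌊y⌋₊ : ℕ) : ℝ) + 1) * ((((⌊y⌋₊ : ℕ) : ℝ) + 1) * (((⌊y⌋₊ : ℕ) : ℝ) + 1))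
        = (((⌊y⌋₊ : ℕ) : ℝ) + 1) ^ 3 := by ring
      _ ≤ (2 * y) ^ 3 := this
      _ = 8 * y ^ 3 := by ring
  have hfin : (F.card : ℝ) ≤ 32 * y ^ 3 * E.card := by
    have h1 : (F.card : ℝ) ≤ T.card := by exact_mod_cast hcard1
    have h2 : (T.card : ℝ) = 2 * (ES.card * ((((⌊y⌋₊ : ℕ) : ℝ) + 1) *
        ((((⌊y⌋₊ : ℕ) : ℝ) + 1) * (((⌊y⌋₊ : ℕ) : ℝ) + 1)))) := by
      rw [hTc]; push_cast; ring
    have h4 : (ES.card : ℝ) ≤ 2 * E.card := by exact_mod_cast hESc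
    calc (F.card : ℝ) ≤ 2 * (ES.card * ((((⌊y⌋₊ : ℕ) : ℝ) + 1) *
        ((((⌊y⌋₊ : ℕ) : ℝ) + 1) * (((⌊y⌋₊ : ℕ) : ℝ) + 1)))) := by rw [← h2]; exact h1
      _ ≤ 2 * ((2 * E.card) * (8 * y ^ 3)) := by
          apply mul_le_mul_of_nonneg_left _ (by norm_num)
          exact mul_le_mul h4 hcube (by positivity) (by positivity)
      _ = 32 * y ^ 3 * E.card := by ring
  have h8 : c * y ^ 4 ≤ 32 * y ^ 3 * E.card := h3.trans hfin
  have h9 : (y ^ 3) * (c / 32 * y) ≤ y ^ 3 * E.card := by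
    calc (y ^ 3) * (c / 32 * y) = (c * y ^ 4) / 32 := by ring
      _ ≤ (32 * y ^ 3 * E.card) / 32 := by linarith
      _ = y ^ 3 * E.card := by ring
  exact le_of_mul_le_mul_left h9 (by positivity)

/-- the number of values at each scale up to the record -/
theorem second_nat : ∃ c : ℝ, 0 < c ∧ ∃ N₀ : ℕ, ∀ N : ℕ, N₀ ≤ N → ∀ y : ℝ, Real.log N ≤ y →
    y ≤ c * rcd N → ∃ E : Finset ℕ, c * y ≤ E.card ∧ ∀ d ∈ E, (d : ℝ) ≤ y ∧ Even d ∧ Val d N := by
  obtain ⟨c₀, c, C, hc₀, hc, hC, h⟩ := second_dens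
  have hq : ∀ᶠ x : ℝ in atTop, rcd x ≤ 16 * rcd (x / 4) := rcd_quarter
  have t0 : Tendsto (fun N : ℕ => (N : ℝ)) atTop atTop := tendsto_natCast_atTop_atTop
  have t1 : Tendsto (fun N : ℕ => (N : ℝ) / 4) atTop atTop := t0.atTop_div_const (by norm_num)
  have t2 : Tendsto (fun N : ℕ => Real.log (N : ℝ)) atTop atTop := Real.tendsto_log_atTop.comp t0
  have t3 : Tendsto (fun N : ℕ => Real.log ((N : ℝ) / 4)) atTop atTop := Real.tendsto_log_atTop.comp t1
  have t4 : ∀ᶠ x : ℝ in atTop, C * Real.log x ≤ x := by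
    have := (Real.isLittleO_log_id_atTop.def (show 0 < 1 / C by positivity))
    filter_upwards [this, eventually_ge_atTop (0 : ℝ)] with x hx hx0
    rw [Real.norm_eq_abs, Real.norm_eq_abs, id, abs_of_nonneg hx0] at hx
    calc C * Real.log x ≤ C * |Real.log x| := mul_le_mul_of_nonneg_left (le_abs_self _) hC.le
      _ ≤ C * (1 / C * x) := mul_le_mul_of_nonneg_left hx hC.le
      _ = x := by field_simp
  obtain ⟨N₀, hN₀⟩ := Filter.eventually_atTop.1 (((t1.eventually h).and (t0.eventually hq)).and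
    ((t2.eventually_ge_atTop (2 : ℝ)).and ((t3.eventually t4).and (eventually_ge_atTop 1))))
  have hmin : 0 < min c (c₀ / 16) := lt_min hc (by positivity)
  refine ⟨min c (c₀ / 16), hmin, N₀, fun N hN y hy1 hy2 => ?_⟩
  obtain ⟨⟨h1, h2⟩, h3, h4, h5⟩ := hN₀ N hN
  have hN1 : (1 : ℝ) ≤ N := by exact_mod_cast h5
  have hy0 : 2 ≤ y := h3.trans hy1
  have hlogle : Real.log ((N : ℝ) / 4) ≤ Real.log N :=
    Real.log_le_log (by positivity) (by linarith)
  have hr0 : 0 ≤ rcd N := by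
    by_contra hcon
    push Not at hcon
    have := mul_neg_of_pos_of_neg hmin hcon
    linarith
  obtain ⟨E, hE1, hE2⟩ := h1 y hy0 (by linarith) (by
    calc y ≤ min c (c₀ / 16) * rcd N := hy2
      _ ≤ c₀ / 16 * rcd N := mul_le_mul_of_nonneg_right (min_le_right _ _) hr0
      _ = c₀ * (rcd N / 16) := by ring
      _ ≤ c₀ * rcd ((N : ℝ) / 4) := mul_le_mul_of_nonneg_left (by linarith) hc₀.le)
  refine ⟨E, ?_, fun d hd => ?_⟩
  · refine le_trans ?_ hE1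
    exact mul_le_mul_of_nonneg_right (min_le_left _ _) (by linarith)
  · obtain ⟨e1, e2, e3⟩ := hE2 d hd
    have e4 : 4 * ((N : ℝ) / 4) = N := by ring
    rw [e4] at e3
    exact ⟨e1, e2, e3⟩

/-- positive density of the values -/
theorem second_pos : ∃ c B : ℝ, 0 < c ∧ 1 ≤ B ∧ ∀ y : ℝ, B ≤ y →
    ∃ E : Finset ℕ, c * y ≤ E.card ∧ ∀ d ∈ E, (d : ℝ) ≤ y ∧ Even d ∧ ∃ N : ℕ, Val d N := by
  obtain ⟨c, hc, N₀, h⟩ := second_nat
  obtain ⟨N₁, hN₁⟩ := rcd_large (c := c / 2) (by positivity) 0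
  refine ⟨c, (max N₀ N₁ : ℕ) + 3, hc, by
    have : (0 : ℝ) ≤ (max N₀ N₁ : ℕ) := Nat.cast_nonneg _
    linarith, fun y hy => ?_⟩
  have hM : (0 : ℝ) ≤ (max N₀ N₁ : ℕ) := Nat.cast_nonneg _
  have hy3 : 3 ≤ y := by linarith
  set N := ⌊Real.exp y⌋₊ with hN
  have hexp : y + 1 ≤ Real.exp y := Real.add_one_le_exp y
  have hNle : (N : ℝ) ≤ Real.exp y := Nat.floor_le (Real.exp_pos y).le
  have hNlt : Real.exp y < N + 1 := Nat.lt_floor_add_one _
  have hNbig : max N₀ N₁ ≤ N := by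
    have : ((max N₀ N₁ : ℕ) : ℝ) ≤ N := by linarith
    exact_mod_cast this
  have hNpos : (0 : ℝ) < N := by linarith
  have hlog1 : Real.log N ≤ y := by
    have := Real.log_le_log hNpos hNle
    rwa [Real.log_exp] at this
  have hlog2 : y ≤ Real.log ((N + 1 : ℕ) : ℝ) := by
    have := Real.log_le_log (Real.exp_pos y) hNlt.le
    rw [Real.log_exp] at this
    push_cast
    exact this
  have h1 := (hN₁ N ((le_max_right _ _).trans hNbig)).1
  obtain ⟨E, hE1, hE2⟩ := h N ((le_max_left _ _).trans hNbig) y hlog1 (by linarith)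
  exact ⟨E, hE1, fun d hd => ⟨(hE2 d hd).1, (hE2 d hd).2.1, N, (hE2 d hd).2.2⟩⟩

end Pool.Agent.Run7.h254.GB
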