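import Pool.Agent.Run7.h254.GB.Second

/-!
# The values of the second differences form a basis of the even numbers
-/

set_option autoImplicit false

namespace Pool.Agent.Run7.h254.GB

open Finset

theorem val_two : Val 2 (71 : ℝ) := by
  have c1 : Nat.count Nat.Prime 59 = 16 := by decide +kernel
  have c2 : Nat.count Nat.Prime 61 = 17 := by decide +kernel
  have c3 : Nat.count Nat.Prime 67 = 18 := by decide +kernel
  have c4 : Nat.count Nat.Prime 71 = 19 := by decide +kernel
  have h1 : Nat.nth Nat.Prime 16 = 59 := by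
    have := Nat.nth_count (p := Nat.Prime) (n := 59) (by norm_num)
    rwa [c1] at this
  have h2 : Nat.nth Nat.Prime 17 = 61 := by
    have := Nat.nth_count (p := Nat.Prime) (n := 61) (by norm_num)
    rwa [c2] at this
  have h3 : Nat.nth Nat.Prime 18 = 67 := by
    have := Nat.nth_count (p := Nat.Prime) (n := 67) (by norm_num)
    rwa [c3] at this
  have h4 : Nat.nth Nat.Prime 19 = 71 := by
    have := Nat.nth_count (p := Nat.Prime) (n := 71) (by norm_num)
    rwa [c4] at this
  refine ⟨8, by norm_num, ?_, ?_⟩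
  · have : 2 * 8 + 3 = 19 := by norm_num
    rw [this, h4]
    norm_num
  · have e1 : gp (2 * 8 + 2) = (Nat.nth Nat.Prime 19 : ℤ) - Nat.nth Nat.Prime 18 := rfl
    have e2 : gp (2 * 8) = (Nat.nth Nat.Prime 17 : ℤ) - Nat.nth Nat.Prime 16 := rfl
    rw [e1, e2, h1, h2, h3, h4]
    norm_num

theorem val_zero : Val 0 (13 : ℝ) := by
  have c1 : Nat.count Nat.Prime 5 = 2 := by decide +kernel
  have c2 : Nat.count Nat.Prime 7 = 3 := by decide +kernel
  have c3 : Nat.count Nat.Prime 11 = 4 := by decide +kernel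
  have c4 : Nat.count Nat.Prime 13 = 5 := by decide +kernel
  have h1 : Nat.nth Nat.Prime 2 = 5 := by
    have := Nat.nth_count (p := Nat.Prime) (n := 5) (by norm_num)
    rwa [c1] at this
  have h2 : Nat.nth Nat.Prime 3 = 7 := by
    have := Nat.nth_count (p := Nat.Prime) (n := 7) (by norm_num)
    rwa [c2] at this
  have h3 : Nat.nth Nat.Prime 4 = 11 := by
    have := Nat.nth_count (p := Nat.Prime) (n := 11) (by norm_num)
    rwa [c3] at this
  have h4 : Nat.nth Nat.Prime 5 = 13 := by
    have := Nat.nth_count (p := Nat.Prime) (n := 13) (by norm_num)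
    rwa [c4] at this
  refine ⟨1, by norm_num, ?_, ?_⟩
  · have : 2 * 1 + 3 = 5 := by norm_num
    rw [this, h4]
    norm_num
  · have e1 : gp (2 * 1 + 2) = (Nat.nth Nat.Prime 5 : ℤ) - Nat.nth Nat.Prime 4 := rfl
    have e2 : gp (2 * 1) = (Nat.nth Nat.Prime 3 : ℤ) - Nat.nth Nat.Prime 2 := rfl
    rw [e1, e2, h1, h2, h3, h4]
    norm_num

theorem second_basis : ∃ k : ℕ, ∀ t : ℕ, Even t → ∃ s : Multiset ℕ, s.card ≤ k ∧ s.sum = t ∧
    ∀ d ∈ s, Even d ∧ ∃ N : ℕ, Val d N := by
  classical
  obtain ⟨c, B, hc, hB1, h⟩ := second_pos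
  obtain ⟨α, hα⟩ : ∃ α : ℝ, α = min c (1 / (B + 1 / c)) := ⟨_, rfl⟩
  have hc1 : 0 < 1 / c := by positivity
  have hBc : 0 < B + 1 / c := by linarith
  have hα0 : 0 < α := by
    rw [hα]
    exact lt_min hc (by positivity)
  obtain ⟨k, hk⟩ := schnirelmann α hα0
  refine ⟨k, fun t ht => ?_⟩
  obtain ⟨A, hA⟩ : ∃ A : Set ℕ, A = {m | ∃ N : ℕ, Val (2 * m) N} := ⟨_, rfl⟩
  have hone : 1 ∈ A := by
    rw [hA]
    exact ⟨71, by exact_mod_cast val_two⟩
  have hdens : ∀ n : ℕ, 1 ≤ n → n ≤ t → α * n ≤ cnt A n := by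
    intro n hn1 _
    have hnr : (1 : ℝ) ≤ n := by exact_mod_cast hn1
    by_cases hsmall : (n : ℝ) ≤ B + 1 / c
    · have h1 : 1 ≤ cnt A n := by
        unfold cnt
        rw [Nat.one_le_iff_ne_zero, ← Nat.pos_iff_ne_zero, card_pos]
        refine ⟨1, ?_⟩
        rw [mem_filter, mem_Icc]
        exact ⟨⟨le_rfl, hn1⟩, hone⟩
      have h1r : (1 : ℝ) ≤ cnt A n := by exact_mod_cast h1
      have h2 : α * n ≤ 1 / (B + 1 / c) * n := by
        rw [hα]
        exact mul_le_mul_of_nonneg_right (min_le_right _ _) (by linarith)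
      have h3 : 1 / (B + 1 / c) * n ≤ 1 := by
        rw [div_mul_eq_mul_div, div_le_one hBc]
        linarith
      linarith
    · push Not at hsmall
      obtain ⟨E, hE1, hE2⟩ := h (2 * n) (by linarith)
      have hsub : ((E.erase 0).image (fun t => t / 2)) ⊆ (Icc 1 n).filter (· ∈ A) := by
        intro m hm
        rw [mem_image] at hm
        obtain ⟨d, hd, rfl⟩ := hm
        rw [mem_erase] at hd
        obtain ⟨h1, h2, h3⟩ := hE2 d hd.2
        have h4 : d ≤ 2 * n := by exact_mod_cast h1
        have h6 : 2 * (d / 2) = d := Nat.two_mul_div_two_of_even h2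
        have h7 := hd.1
        rw [mem_filter, mem_Icc]
        refine ⟨⟨by omega, by omega⟩, ?_⟩
        rw [hA, Set.mem_ofPred_eq, h6]
        exact h3
      have hinj : ((E.erase 0).image (fun t => t / 2)).card = (E.erase 0).card := by
        apply card_image_of_injOn
        intro x hx y hy hxy
        have h1 := Nat.two_mul_div_two_of_even (hE2 x (mem_of_mem_erase hx)).2.1
        have h2 := Nat.two_mul_div_two_of_even (hE2 y (mem_of_mem_erase hy)).2.1
        simp only at hxy
        omega
      have hcard : (E.erase 0).card ≤ cnt A n := by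
        rw [← hinj]; exact card_le_card hsub
      have herase : E.card ≤ (E.erase 0).card + 1 := by
        have := Finset.pred_card_le_card_erase (s := E) (a := 0)
        omega
      have hcardr : (E.card : ℝ) ≤ cnt A n + 1 := by
        have : E.card ≤ cnt A n + 1 := by omega
        exact_mod_cast this
      have h13 : α * n ≤ c * n := by
        rw [hα]
        exact mul_le_mul_of_nonneg_right (min_le_left _ _) (by linarith)
      have h14 : 1 ≤ c * n := by
        have h15 : 1 / c ≤ n := by linarith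
        calc (1 : ℝ) = c * (1 / c) := by field_simp
          _ ≤ c * n := mul_le_mul_of_nonneg_left h15 hc.le
      have h16 : c * (2 * (n : ℝ)) = c * n + c * n := by ring
      linarith
  obtain ⟨s, hs1, hs2, hs3⟩ := hk A t hdens (t / 2) (Nat.div_le_self _ _)
  refine ⟨s.map (fun x => 2 * x), by simpa using hs1, ?_, ?_⟩
  · rw [Multiset.sum_map_mul_left, Multiset.map_id', hs2]
    exact Nat.two_mul_div_two_of_even ht
  · intro g hg
    rw [Multiset.mem_map] at hg
    obtain ⟨x, hx, rfl⟩ := hg
    have h1 := hs3 x hx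
    rw [hA] at h1
    exact ⟨even_two_mul x, h1⟩

end Pool.Agent.Run7.h254.GB
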